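import Pool.Agent.N647.BU.Prod
import Pool.Agent.N647.FG.CritCount
import Pool.Agent.H442R2.KF.Inc

set_option autoImplicit false

/-! # Record prime gaps at the integers of short intervals whose residues are in a set with small character norm -/

namespace Pool.Agent.L5helper97.RG

open Finset Filter
open Pool.Agent.N647.FG (AP AP_one AP_card Far crit_count)
open Pool.Agent.N647.BU
open Pool.Agent.W147.PS (ev_pow)

/-- the character norm of a set of residues -/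
noncomputable def nrm {p : ℕ} [Fact p.Prime] (T : Finset (ZMod p)) : ℝ :=
  ∑ χ : DirichletCharacter ℂ p, ‖coef T χ‖

/-- **sets with small character norm** -/
theorem main (δ : ℝ) (hδ : 0 < δ) : ∃ κ : ℝ, 0 < κ ∧ ∃ δ' : ℝ, 0 < δ' ∧ ∃ p₀ : ℕ,
    ∀ (p : ℕ) [Fact p.Prime], p₀ ≤ p → ∀ T : Finset (ZMod p), (∀ a ∈ T, a ≠ 0) →
    (p : ℝ) ^ (1 - δ') ≤ T.card → nrm T ≤ (p : ℝ) ^ δ' →
    ∀ (M : ℤ) (L : ℕ), (p : ℝ) ^ (1 / 4 + δ) ≤ L → L ≤ p →
      (p : ℝ) ^ (-δ) * (L * T.card / p) ≤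
        ({x : ℤ | M < x ∧ x ≤ M + L ∧ (x : ZMod p) ∈ T ∧
          Far x (κ * Pool.Agent.W147.PS.ff p) ((p : ℝ) ^ δ)}.ncard : ℝ) := by
  classical
  obtain ⟨δB, hδB, hbur⟩ := bur_AP δ hδ
  set δ₂ : ℝ := min (δ / 2) (min (δB / 8) (1 / 10)) with hδ₂
  have hδ₂0 : 0 < δ₂ := lt_min (by positivity) (lt_min (by positivity) (by norm_num))
  have a1 : δ₂ ≤ δ / 2 := min_le_left _ _
  have a2 : δ₂ ≤ δB / 8 := (min_le_right _ _).trans (min_le_left _ _)
  have a3 : δ₂ ≤ 1 / 10 := (min_le_right _ _).trans (min_le_right _ _)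
  obtain ⟨κ, hκ, hcrit⟩ := crit_count 1 le_rfl δ₂ hδ₂0 (by linarith)
  set θ : ℝ := δ₂ / (4 * ((1 : ℕ) : ℝ) + 2) with hθ
  have hθ0 : 0 < θ := by positivity
  have hθ1 : θ ≤ δ₂ := by
    rw [hθ]
    apply div_le_self hδ₂0.le
    norm_num
  refine ⟨κ, hκ, δ₂, hδ₂0, ?_⟩
  have tc : Tendsto (fun q : ℕ => (q : ℝ)) atTop atTop := tendsto_natCast_atTop_atTop
  have hev := (((hbur.and (tc.eventually hcrit)).and (tc.eventually
    (ev_pow (-(1 / 4)) (-δ₂) 24 (by linarith)))).and (tc.eventually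
    (ev_pow (δ₂ + δ₂ - δB) (-δ₂) 8 (by linarith)))).and (tc.eventually
    (ev_pow (-δ) (-δ₂) 2 (by linarith)))
  obtain ⟨p₀, hp₀⟩ := eventually_atTop.mp hev
  refine ⟨p₀, ?_⟩
  intro p _ hpp T hT hTc hTn M L hL hLp
  have hp : p.Prime := Fact.out
  obtain ⟨⟨⟨⟨g1, g2⟩, g3⟩, g4⟩, g5⟩ := hp₀ p hpp
  have hp1 : (1 : ℝ) < p := by exact_mod_cast hp.one_lt
  have hp0 : (0 : ℝ) < p := by linarith
  have hmono : ∀ x y : ℝ, x ≤ y → (p : ℝ) ^ x ≤ (p : ℝ) ^ y := fun x y h =>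
    Real.rpow_le_rpow_of_exponent_le hp1.le h
  have hL0 : (0 : ℝ) < L := (Real.rpow_pos_of_pos hp0 _).trans_le hL
  set φ : ℝ := (p.totient : ℝ) with hφ
  have hφ0 : 0 < φ := by
    rw [hφ]
    exact_mod_cast Nat.totient_pos.mpr hp.pos
  have hφp : φ ≤ p := by
    rw [hφ]
    exact_mod_cast Nat.totient_le p
  have hT0 : (0 : ℝ) < T.card := (Real.rpow_pos_of_pos hp0 _).trans_le hTc
  set A : ℝ := L * T.card / φ with hA
  have hA0 : 0 < A := by positivity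
  have hpδ₂ : 0 < (p : ℝ) ^ (-δ₂) := Real.rpow_pos_of_pos hp0 _
  have hsmall : (p : ℝ) ^ (-δ₂) ≤ 1 :=
    Real.rpow_le_one_of_one_le_of_nonpos hp1.le (by linarith)
  -- the count in progressions
  have key : ∀ q : ℕ, 1 ≤ q → (q : ℝ) ≤ (p : ℝ) ^ θ → ∀ ρ : ℤ,
      |(((AP M L q ρ).filter (fun x : ℤ => (x : ZMod p) ∈ T)).card : ℝ) - A / (q : ℝ)| ≤
        A * ((p : ℝ) ^ (-δ₂) / 4) := by
    intro q hq hqp ρ
    have hqR : (1 : ℝ) ≤ q := by exact_mod_cast hq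
    have hq0 : (0 : ℝ) < q := by linarith
    have hqδ' : (q : ℝ) ≤ (p : ℝ) ^ δB := hqp.trans (hmono _ _ (by linarith))
    set X := AP M L q ρ with hX
    have h2 := cnt_eq T hT X
    rw [← add_sum_erase univ _ (mem_univ (1 : DirichletCharacter ℂ p)), coef_one T hT, SX_one] at h2
    set U : ℝ := ((X.filter (fun x : ℤ => (x : ZMod p) ≠ 0)).card : ℝ) with hU
    have h3 : ((((X.filter (fun x : ℤ => (x : ZMod p) ∈ T)).card : ℝ) - T.card / φ * U : ℝ) : ℂ) =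
        ∑ χ ∈ univ.erase (1 : DirichletCharacter ℂ p), coef T χ * SX χ X := by
      push_cast
      rw [h2]
      simp only [hφ, hU]
      push_cast
      ring
    have h4 : |((X.filter (fun x : ℤ => (x : ZMod p) ∈ T)).card : ℝ) - T.card / φ * U| ≤
        (p : ℝ) ^ δ₂ * ((p : ℝ) ^ (-δB) * L) := by
      rw [← Real.norm_eq_abs, ← Complex.norm_real, h3]
      refine (norm_sum_le _ _).trans ?_
      calc ∑ χ ∈ univ.erase (1 : DirichletCharacter ℂ p), ‖coef T χ * SX χ X‖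
          ≤ ∑ χ ∈ univ.erase (1 : DirichletCharacter ℂ p), ‖coef T χ‖ * ((p : ℝ) ^ (-δB) * L) := by
            refine sum_le_sum fun χ hχ => ?_
            rw [norm_mul]
            exact mul_le_mul_of_nonneg_left
              (g1 χ (ne_of_mem_erase hχ) M L q hq hqδ' ρ hL) (norm_nonneg _)
        _ ≤ ∑ χ : DirichletCharacter ℂ p, ‖coef T χ‖ * ((p : ℝ) ^ (-δB) * L) :=
            sum_le_sum_of_subset_of_nonneg (erase_subset _ _) fun χ _ _ =>
              mul_nonneg (norm_nonneg _) (by positivity)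
        _ = nrm T * ((p : ℝ) ^ (-δB) * L) := by rw [← sum_mul]; rfl
        _ ≤ _ := mul_le_mul_of_nonneg_right hTn (by positivity)
    have h5 := units_AP M L q hq hLp ρ
    have h6 : |T.card / φ * U - A / q| ≤ A * ((p : ℝ) ^ (-δ₂) / 8) := by
      have e3 : T.card / φ * U - A / q = T.card / φ * (U - L / q) := by
        rw [hA]; field_simp
      rw [e3, abs_mul, abs_of_pos (show (0 : ℝ) < T.card / φ by positivity)]
      calc T.card / φ * |U - L / q| ≤ T.card / φ * 3 :=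
            mul_le_mul_of_nonneg_left h5 (by positivity)
        _ ≤ T.card / φ * (L * ((p : ℝ) ^ (-δ₂) / 8)) := by
            apply mul_le_mul_of_nonneg_left _ (by positivity)
            have h7 : (p : ℝ) ^ (1 / 4 : ℝ) ≤ L := (hmono _ _ (by linarith)).trans hL
            have h8 : (p : ℝ) ^ (-(1 / 4) : ℝ) * (p : ℝ) ^ (1 / 4 : ℝ) = 1 := by
              rw [← Real.rpow_add hp0]; norm_num
            have h9 : 1 ≤ (p : ℝ) ^ (-(1 / 4) : ℝ) * L :=
              le_trans h8.ge (mul_le_mul_of_nonneg_left h7 (by positivity))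
            nlinarith
        _ = _ := by rw [hA]; ring
    have h7 : (p : ℝ) ^ δ₂ * ((p : ℝ) ^ (-δB) * L) ≤ A * ((p : ℝ) ^ (-δ₂) / 8) := by
      have h8 : (p : ℝ) ^ (-δ₂) ≤ T.card / φ := by
        rw [le_div_iff₀ hφ0]
        calc (p : ℝ) ^ (-δ₂) * φ ≤ (p : ℝ) ^ (-δ₂) * p := by gcongr
          _ = (p : ℝ) ^ (1 - δ₂) := by
              rw [sub_eq_add_neg, Real.rpow_add hp0, Real.rpow_one, mul_comm]
          _ ≤ _ := hTc
      have h9 : (p : ℝ) ^ δ₂ * (p : ℝ) ^ (-δB) ≤ (p : ℝ) ^ (-δ₂) * ((p : ℝ) ^ (-δ₂) / 8) := by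
        have e1 : (p : ℝ) ^ δ₂ * (p : ℝ) ^ (-δB) =
            (p : ℝ) ^ (-δ₂) * (p : ℝ) ^ (δ₂ + δ₂ - δB) := by
          rw [← Real.rpow_add hp0, ← Real.rpow_add hp0]
          congr 1
          ring
        rw [e1]
        apply mul_le_mul_of_nonneg_left _ hpδ₂.le
        linarith
      calc (p : ℝ) ^ δ₂ * ((p : ℝ) ^ (-δB) * L) = L * ((p : ℝ) ^ δ₂ * (p : ℝ) ^ (-δB)) := by ring
        _ ≤ L * ((p : ℝ) ^ (-δ₂) * ((p : ℝ) ^ (-δ₂) / 8)) :=
            mul_le_mul_of_nonneg_left h9 hL0.le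
        _ ≤ L * (T.card / φ * ((p : ℝ) ^ (-δ₂) / 8)) := by gcongr
        _ = _ := by rw [hA]; ring
    have h8 := abs_add_le (((X.filter (fun x : ℤ => (x : ZMod p) ∈ T)).card : ℝ) - T.card / φ * U)
      (T.card / φ * U - A / q)
    rw [sub_add_sub_cancel] at h8
    linarith
  -- the family
  set s : Finset ℤ := (Ioc M (M + L)).filter (fun x : ℤ => (x : ZMod p) ∈ T) with hs
  have k1 := key 1 le_rfl (by simpa using Real.one_le_rpow hp1.le hθ0.le) 0
  rw [AP_one, ← hs, Nat.cast_one, div_one] at k1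
  have hscard : A / 2 ≤ (s.card : ℝ) := by
    have h1 := (abs_le.mp k1).1
    have h2 : A * ((p : ℝ) ^ (-δ₂) / 4) ≤ A * (1 / 4) := by gcongr
    linarith
  have hmain := g2 ℤ s (fun x _ => x) (by
    intro q hq hqp ρ
    have hqR : (1 : ℝ) ≤ (q : ℝ) := by exact_mod_cast hq
    have k2 := key q hq hqp (ρ 0)
    have e1 : s.filter (fun i => ∀ j : Fin 1, (q : ℤ) ∣ i - ρ j) =
        (AP M L q (ρ 0)).filter (fun x : ℤ => (x : ZMod p) ∈ T) := by
      ext x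
      unfold AP
      simp only [hs, mem_filter, Fin.forall_fin_one]
      tauto
    rw [e1, pow_one]
    have k3 : |A / (q : ℝ) - s.card / (q : ℝ)| ≤ A * ((p : ℝ) ^ (-δ₂) / 4) := by
      rw [← sub_div, abs_div, abs_of_pos (show (0 : ℝ) < (q : ℝ) by linarith), abs_sub_comm]
      exact (div_le_self (abs_nonneg _) hqR).trans k1
    have k4 := abs_add_le ((((AP M L q (ρ 0)).filter
        (fun x : ℤ => (x : ZMod p) ∈ T)).card : ℝ) - A / (q : ℝ))
      (A / (q : ℝ) - s.card / (q : ℝ))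
    rw [sub_add_sub_cancel] at k4
    have k5 : A / 2 * (p : ℝ) ^ (-δ₂) ≤ s.card * (p : ℝ) ^ (-δ₂) :=
      mul_le_mul_of_nonneg_right hscard hpδ₂.le
    linarith)
  set Y := {x : ℤ | M < x ∧ x ≤ M + L ∧ (x : ZMod p) ∈ T ∧
          Far x (κ * Pool.Agent.W147.PS.ff p) ((p : ℝ) ^ δ)} with hY
  have hYfin : Y.Finite := by
    apply Set.Finite.subset (Ioc M (M + L)).finite_toSet
    intro x hx
    rw [mem_coe, mem_Ioc]
    exact ⟨hx.1, hx.2.1⟩
  have hle : (s.filter (fun x => ∀ _j : Fin 1, Far x (κ * Pool.Agent.W147.PS.ff p)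
      ((p : ℝ) ^ δ₂))).card ≤ Y.ncard := by
    rw [← Set.ncard_coe_finset]
    apply Set.ncard_le_ncard _ hYfin
    intro x hx
    rw [mem_coe, mem_filter, hs, mem_filter, mem_Ioc] at hx
    refine ⟨hx.1.1.1, hx.1.1.2, hx.1.2, ?_⟩
    intro m hm
    obtain ⟨l, hl, hl2, hl3⟩ := hx.2 0 m hm
    exact ⟨l, hl, hl2.trans (hmono _ _ (by linarith)), hl3⟩
  have hle' : ((s.filter (fun x => ∀ _j : Fin 1, Far x (κ * Pool.Agent.W147.PS.ff p)
      ((p : ℝ) ^ δ₂))).card : ℝ) ≤ (Y.ncard : ℝ) := by exact_mod_cast hle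
  refine le_trans ?_ (hmain.trans hle')
  have h1 : (L : ℝ) * T.card / p ≤ A := by
    rw [hA]
    gcongr
  calc (p : ℝ) ^ (-δ) * (L * T.card / p) ≤ (p : ℝ) ^ (-δ) * A := by gcongr
    _ ≤ ((p : ℝ) ^ (-δ₂) / 2) * A := by
        apply mul_le_mul_of_nonneg_right _ hA0.le
        linarith
    _ = (p : ℝ) ^ (-δ₂) * (A / 2) := by ring
    _ ≤ _ := mul_le_mul_of_nonneg_left hscard hpδ₂.le

end Pool.Agent.L5helper97.RG
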