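import Pool.Agent.L5helper97.RG.Kl

set_option autoImplicit false

/-! # Record prime gaps at modular inverses -/

namespace Pool.Agent.L5helper97.RG

open Finset Filter

/-- the record scale for gaps between primes -/
noncomputable def f (x : ℝ) : ℝ :=
  Real.log x * (Real.log (Real.log x)) ^ 2 * Real.log (Real.log (Real.log (Real.log x))) /
    (Real.log (Real.log (Real.log x))) ^ 2

/-- all the integers at distance at most `κ f(p)` from `n` have a prime factor at most `p ^ δ` -/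
def Centre (κ δ : ℝ) (p : ℕ) (n : ℤ) : Prop :=
  ∀ m : ℤ, |(m : ℝ) - n| ≤ κ * f p → ∃ l : ℕ, l.Prime ∧ (l : ℝ) ≤ (p : ℝ) ^ δ ∧ (l : ℤ) ∣ m

/-- all the monomials in `z` with coprime exponents at most `E` are centres -/
def Good (κ δ : ℝ) (E p : ℕ) {k : ℕ} (z : Fin k → ℤ) : Prop :=
  ∀ e : Fin k → ℕ, (∀ j, e j ≤ E) → Finset.univ.gcd e = 1 → Centre κ δ p (∏ j, z j ^ e j)

open scoped Classical in
/-- the number of the members of the family of vectors modulo `p` which are represented by good vectors of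
integers in the box is at least `p ^ (-δ)` times the expected number of the members in the box -/
def Many (κ δ : ℝ) (E p : ℕ) {k : ℕ} {ι : Type} (S : Finset ι) (R : ι → Fin k → ZMod p)
    (M : Fin k → ℤ) (L : Fin k → ℕ) : Prop :=
  (p : ℝ) ^ (-δ) * (S.card * ∏ j, ((L j : ℝ) / p)) ≤
    ((S.filter (fun i => ∃ z : Fin k → ℤ,
      (∀ j, M j < z j ∧ z j ≤ M j + L j ∧ ((z j : ℤ) : ZMod p) = R i j) ∧ Good κ δ E p z)).card : ℝ)

theorem many_of (k E : ℕ) (δ : ℝ) (hδ : 0 < δ) (hδ1 : δ ≤ 1) :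
    ∃ κ : ℝ, 0 < κ ∧ ∃ p₀ : ℕ, ∀ (p : ℕ) [Fact p.Prime], p₀ ≤ p →
    ∀ (ε : ℝ) (ι : Type) (S : Finset ι) (R : ι → Fin k → ZMod p), S.Nonempty →
    (∀ α : Fin k → ZMod p, α ≠ 0 →
      ‖∑ i ∈ S, (ZMod.stdAddChar (∑ j, α j * R i j) : ℂ)‖ ^ 2 * (p : ℝ) ^ (2 * ε) ≤
        (S.card : ℝ) ^ 2 * (p : ℝ) ^ (δ / 2)) →
    ∀ (M : Fin k → ℤ) (L : Fin k → ℕ), (∀ j, (p : ℝ) ^ δ ≤ L j ∧ L j ≤ p) →
      (p : ℝ) ^ ((k : ℝ) - ε + δ) ≤ ∏ j, (L j : ℝ) → Many κ δ E p S R M L := by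
  classical
  obtain ⟨κ, hκ, p₁, h⟩ := Pool.Agent.N39.RG.mainE k E (δ / 2) (by linarith) (by linarith)
  refine ⟨κ, hκ, p₁, ?_⟩
  intro p _ hpp ε ι S R hS hR M L hL hV
  have hp : p.Prime := Fact.out
  have hp1 : (1 : ℝ) < p := by exact_mod_cast hp.one_lt
  have hp0 : (0 : ℝ) < p := by linarith
  have hmo : ∀ x y : ℝ, x ≤ y → (p : ℝ) ^ x ≤ (p : ℝ) ^ y := fun x y h =>
    Real.rpow_le_rpow_of_exponent_le hp1.le h
  have key := h p hpp (ε - δ / 4) ι S R hS (by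
      intro α hα
      have h1 := hR α hα
      have ha0 : 0 < (p : ℝ) ^ (2 * ε) := Real.rpow_pos_of_pos hp0 _
      have h6 : ((p : ℝ) ^ (-(ε - δ / 4))) ^ 2 = (p : ℝ) ^ (δ / 2) / (p : ℝ) ^ (2 * ε) := by
        rw [← Real.rpow_sub hp0, ← Real.rpow_natCast, ← Real.rpow_mul hp0.le]
        congr 1
        push_cast
        ring
      apply le_of_sq_le_sq _ (by positivity)
      rw [mul_pow, h6, ← mul_div_assoc, le_div_iff₀ ha0]
      exact h1) M L (fun j => (hL j).2)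
    (fun j => (hmo _ _ (by linarith)).trans (hL j).1)
    ((hmo _ _ (by linarith)).trans hV)
  have hQ0 : 0 ≤ (S.card : ℝ) * ∏ j, ((L j : ℝ) / p) :=
    mul_nonneg (by positivity) (prod_nonneg fun j _ => by positivity)
  unfold Many
  refine (mul_le_mul_of_nonneg_right (hmo (-δ) (-(δ / 2)) (by linarith)) hQ0).trans (key.trans ?_)
  have h5 := Pool.Agent.N39.RG.fam_to_index S R M L
    (fun j => (hL j).2) (fun z => ∀ e : Fin k → ℕ, (∀ i, e i ≤ E) → Finset.univ.gcd e = 1 →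
        Pool.Agent.N39.RG.Far (∏ i, z i ^ e i) (κ * Pool.Agent.W147.PS.ff p) ((p : ℝ) ^ (δ / 2)))
  refine le_trans (Nat.cast_le.mpr h5) ?_
  rw [Nat.cast_le]
  apply card_le_card
  intro q hq
  rw [mem_filter] at hq ⊢
  obtain ⟨h6, z, h7, h8⟩ := hq
  refine ⟨h6, z, h7, fun e he hg m hm => ?_⟩
  obtain ⟨l, hl, hl2, hl3⟩ := h8 e he hg m hm
  exact ⟨l, hl, hl2.trans (hmo _ _ (by linarith)), hl3⟩

open scoped Classical in
/-- families `c_x y + d_x / y + u(x) + v(y)` -/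
theorem families (r E : ℕ) (δ : ℝ) (hδ : 0 < δ) (hδ1 : δ ≤ 1) :
    ∃ κ : ℝ, 0 < κ ∧ ∃ p₀ : ℕ, ∀ (p : ℕ) [Fact p.Prime], p₀ ≤ p →
    ∀ (ε : ℝ) (I : Type) (X : Finset I) (Y : Finset (ZMod p)ˣ) (c d u : I → Fin r → ZMod p)
      (v : (ZMod p)ˣ → Fin r → ZMod p), X.Nonempty →
    (p : ℝ) ^ (1 / 2 + 2 * ε) ≤ Y.card →
    (∀ α : Fin r → ZMod p, α ≠ 0 →
      (((X ×ˢ X).filter (fun q => ∑ j, α j * (c q.1 j - c q.2 j) = 0 ∧
          ∑ j, α j * (d q.1 j - d q.2 j) = 0)).card : ℝ) *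
        (p : ℝ) ^ (1 + 2 * ε) ≤ (X.card : ℝ) ^ 2 * Y.card) →
    ∀ (M : Fin r → ℤ) (L : Fin r → ℕ), (∀ j, (p : ℝ) ^ δ ≤ L j ∧ L j ≤ p) →
      (p : ℝ) ^ ((r : ℝ) - ε + δ) ≤ ∏ j, (L j : ℝ) →
    Many κ δ E p (X ×ˢ Y) (fun q j => c q.1 j * (q.2 : ZMod p) +
      d q.1 j * ((q.2⁻¹ : (ZMod p)ˣ) : ZMod p) + u q.1 j + v q.2 j) M L := by
  obtain ⟨κ, hκ, p₁, h⟩ := many_of r E δ hδ hδ1
  have hev : ∀ᶠ x : ℝ in atTop, 3 ≤ x ^ (δ / 2) :=
    (tendsto_rpow_atTop (by positivity)).eventually_ge_atTop 3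
  obtain ⟨x₀, hx₀⟩ := eventually_atTop.mp hev
  obtain ⟨p₂, hp₂⟩ := exists_nat_ge x₀
  refine ⟨κ, hκ, max p₁ p₂, ?_⟩
  intro p _ hpp ε I X Y c d u v hX hY hT M L hL hV
  have hp : p.Prime := Fact.out
  have g2 : 3 ≤ (p : ℝ) ^ (δ / 2) :=
    hx₀ p (hp₂.trans (by exact_mod_cast (le_max_right _ _).trans hpp))
  have hp1 : (1 : ℝ) < p := by exact_mod_cast hp.one_lt
  have hp0 : (0 : ℝ) < p := by linarith
  have hXc : (0 : ℝ) < X.card := by exact_mod_cast hX.card_pos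
  have hYc : (0 : ℝ) < Y.card := lt_of_lt_of_le (Real.rpow_pos_of_pos hp0 _) hY
  have hYne : Y.Nonempty := by
    rw [← card_pos]
    exact_mod_cast hYc
  have hScard : (((X ×ˢ Y).card : ℕ) : ℝ) = X.card * Y.card := by
    rw [card_product]; push_cast; rfl
  refine h p ((le_max_left _ _).trans hpp) ε (I × (ZMod p)ˣ) (X ×ˢ Y) _ (hX.product hYne) ?_ M L hL hV
  intro α hα
  have h1 := bias_kl_sq X r c d u Y v α
  have h2 := hT α hα
  rw [hScard]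
  obtain ⟨N, hN⟩ : ∃ N : ℝ, N = (((X ×ˢ X).filter (fun q =>
          ∑ j, α j * (c q.1 j - c q.2 j) = 0 ∧
          ∑ j, α j * (d q.1 j - d q.2 j) = 0)).card : ℝ) := ⟨_, rfl⟩
  obtain ⟨a, ha⟩ : ∃ a : ℝ, a = (p : ℝ) ^ (2 * ε) := ⟨_, rfl⟩
  have ha0 : 0 < a := by rw [ha]; exact Real.rpow_pos_of_pos hp0 _
  rw [← hN] at h2 h1
  rw [Real.rpow_add hp0, Real.rpow_one, ← ha] at h2
  have h3 : Real.sqrt p * a ≤ Y.card := by
    rw [Real.sqrt_eq_rpow, ha, ← Real.rpow_add hp0]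
    exact hY
  rw [← ha]
  calc _ ≤ (Y.card : ℝ) * (N * p + (X.card : ℝ) ^ 2 * (2 * Real.sqrt p)) * a :=
        mul_le_mul_of_nonneg_right h1 ha0.le
    _ = (Y.card : ℝ) * (N * (p * a) + (X.card : ℝ) ^ 2 * (2 * (Real.sqrt p * a))) := by ring
    _ ≤ (Y.card : ℝ) * ((X.card : ℝ) ^ 2 * Y.card + (X.card : ℝ) ^ 2 * (2 * Y.card)) := by gcongr
    _ = (X.card * Y.card : ℝ) ^ 2 * 3 := by ring
    _ ≤ _ := by gcongr

open scoped Classical in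
/-- modular hyperbolas -/
theorem hyperbola (E : ℕ) (δ : ℝ) (hδ : 0 < δ) (hδ1 : δ ≤ 1) :
    ∃ κ : ℝ, 0 < κ ∧ ∃ p₀ : ℕ, ∀ (p : ℕ) [Fact p.Prime], p₀ ≤ p →
    ∀ s t u : ZMod p, u ≠ 0 → ∀ (M : Fin 2 → ℤ) (L : Fin 2 → ℕ), (∀ j, L j ≤ p) →
      (p : ℝ) ^ (3 / 2 + δ) ≤ L 0 * L 1 →
    (p : ℝ) ^ (-δ) * (L 0 * L 1 / p) ≤
      (((Fintype.piFinset fun j => Ioc (M j) (M j + L j)).filter (fun z =>
        ((z 0 : ZMod p) + s) * ((z 1 : ZMod p) + t) = u ∧ Good κ δ E p z)).card : ℝ) := by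
  obtain ⟨κ, hκ, p₁, h⟩ := many_of 2 E (δ / 2) (by linarith) (by linarith)
  have hev : ∀ᶠ x : ℝ in atTop, 16 ≤ x ^ (δ / 4) :=
    (tendsto_rpow_atTop (by positivity)).eventually_ge_atTop 16
  obtain ⟨x₀, hx₀⟩ := eventually_atTop.mp hev
  obtain ⟨p₂, hp₂⟩ := exists_nat_ge x₀
  refine ⟨κ, hκ, max p₁ p₂, ?_⟩
  intro p _ hpp s t u hu M L hLp hL
  have hp : p.Prime := Fact.out
  have hp2 := hp.two_le
  have g2 : 16 ≤ (p : ℝ) ^ (δ / 4) :=
    hx₀ p (hp₂.trans (by exact_mod_cast (le_max_right _ _).trans hpp))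
  have hp1 : (1 : ℝ) < p := by exact_mod_cast hp.one_lt
  have hp0 : (0 : ℝ) < p := by linarith
  have hp2R : (2 : ℝ) ≤ p := by exact_mod_cast hp2
  have hmo : ∀ x y : ℝ, x ≤ y → (p : ℝ) ^ x ≤ (p : ℝ) ^ y := fun x y h =>
    Real.rpow_le_rpow_of_exponent_le hp1.le h
  have hL0p : (L 0 : ℝ) ≤ p := by exact_mod_cast hLp 0
  have hL1p : (L 1 : ℝ) ≤ p := by exact_mod_cast hLp 1
  have hLr : ∀ a b : ℝ, 0 ≤ b → b ≤ p → (p : ℝ) ^ (3 / 2 + δ) ≤ a * b → 0 ≤ a →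
      (p : ℝ) ^ (δ / 2) ≤ a := by
    intro a b hb0 hb hab ha
    have h1 : (p : ℝ) ^ (3 / 2 + δ) ≤ a * p := hab.trans (by gcongr)
    have h2 : (p : ℝ) ^ (3 / 2 + δ) = (p : ℝ) ^ (1 / 2 + δ) * p := by
      rw [show (3 / 2 + δ : ℝ) = (1 / 2 + δ) + 1 by ring, Real.rpow_add hp0, Real.rpow_one]
    rw [h2] at h1
    exact (hmo _ _ (by linarith)).trans (le_of_mul_le_mul_right h1 hp0)
  have hside : ∀ j, (p : ℝ) ^ (δ / 2) ≤ L j ∧ L j ≤ p := by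
    intro j
    refine ⟨?_, hLp j⟩
    fin_cases j
    · exact hLr (L 0) (L 1) (Nat.cast_nonneg _) hL1p hL (Nat.cast_nonneg _)
    · exact hLr (L 1) (L 0) (Nat.cast_nonneg _) hL0p (by rw [mul_comm]; exact hL) (Nat.cast_nonneg _)
  have hcard : (((univ : Finset (ZMod p)ˣ).card : ℕ) : ℝ) = (p : ℝ) - 1 := by
    rw [card_univ, ZMod.card_units, Nat.cast_sub (by omega), Nat.cast_one]
  have key := h p ((le_max_left _ _).trans hpp) (1 / 2) (ZMod p)ˣ univ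
    (fun y => ![(y : ZMod p) - s, u * ((y⁻¹ : (ZMod p)ˣ) : ZMod p) - t]) univ_nonempty (by
      intro α hα
      have e1 : ∑ y : (ZMod p)ˣ, (ZMod.stdAddChar (∑ j, α j *
          (![(y : ZMod p) - s, u * ((y⁻¹ : (ZMod p)ˣ) : ZMod p) - t] : Fin 2 → ZMod p) j) : ℂ) =
          (ZMod.stdAddChar (-(α 0 * s + α 1 * t)) : ℂ) * ∑ y : (ZMod p)ˣ, (ZMod.stdAddChar
            (α 0 * (y : ZMod p) + (α 1 * u) * ((y⁻¹ : (ZMod p)ˣ) : ZMod p)) : ℂ) := by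
        rw [mul_sum]
        refine sum_congr rfl fun y _ => ?_
        rw [← Pool.Agent.N39.RG.psi_add]
        congr 1
        simp only [Fin.sum_univ_two, Matrix.cons_val_zero, Matrix.cons_val_one]
        ring
      have h2 : ¬ (α 0 = 0 ∧ α 1 * u = 0) := by
        rintro ⟨h3, h4⟩
        apply hα
        funext j
        fin_cases j
        · exact h3
        · rcases mul_eq_zero.mp h4 with h | h
          · exact h
          · exact absurd h hu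
      have h3 := kl (α 0) (α 1 * u) h2
      rw [e1, norm_mul, Pool.Agent.N39.RG.psi_norm, one_mul, hcard]
      have h4 : ‖∑ y : (ZMod p)ˣ, (ZMod.stdAddChar
            (α 0 * (y : ZMod p) + (α 1 * u) * ((y⁻¹ : (ZMod p)ˣ) : ZMod p)) : ℂ)‖ ^ 2 ≤ 4 * p := by
        calc _ ≤ (2 * Real.sqrt p) ^ 2 := pow_le_pow_left₀ (norm_nonneg _) h3 2
          _ = 4 * p := by rw [mul_pow, Real.sq_sqrt hp0.le]; norm_num
      have h5 : (p : ℝ) ^ (2 * (1 / 2) : ℝ) = p := by norm_num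
      rw [h5, show δ / 2 / 2 = δ / 4 by ring]
      have h6 : (p : ℝ) ^ 2 ≤ 4 * ((p : ℝ) - 1) ^ 2 := by nlinarith
      calc _ ≤ (4 * (p : ℝ)) * (p : ℝ) := mul_le_mul_of_nonneg_right h4 hp0.le
        _ = 4 * (p : ℝ) ^ 2 := by ring
        _ ≤ 16 * ((p : ℝ) - 1) ^ 2 := by linarith
        _ ≤ (p : ℝ) ^ (δ / 4) * ((p : ℝ) - 1) ^ 2 := by gcongr
        _ = _ := by ring) M L hside (by
      rw [Fin.prod_univ_two]
      refine le_trans (hmo _ _ ?_) hL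
      push_cast
      linarith)
  unfold Many at key
  rw [hcard, Fin.prod_univ_two] at key
  have hnn : (0 : ℝ) ≤ (L 0 : ℝ) * L 1 := by positivity
  refine le_trans ?_ (key.trans ?_)
  · have e1 : ((p : ℝ) - 1) * ((L 0 : ℝ) / p * ((L 1 : ℝ) / p)) =
        (L 0 * L 1 / p) * (((p : ℝ) - 1) / p) := by field_simp
    rw [e1]
    have h1 : (1 : ℝ) / 2 ≤ ((p : ℝ) - 1) / p := by
      rw [div_le_div_iff₀ (by norm_num) hp0]
      linarith
    have h2 : 2 * (p : ℝ) ^ (-δ) ≤ (p : ℝ) ^ (-(δ / 2)) := by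
      have e2 : (p : ℝ) ^ (-(δ / 2)) = (p : ℝ) ^ (-δ) * ((p : ℝ) ^ (δ / 4) * (p : ℝ) ^ (δ / 4)) := by
        rw [← Real.rpow_add hp0, ← Real.rpow_add hp0]
        congr 1
        ring
      rw [e2]
      have h3 : 0 < (p : ℝ) ^ (-δ) := Real.rpow_pos_of_pos hp0 _
      have h4 : (2 : ℝ) ≤ (p : ℝ) ^ (δ / 4) * (p : ℝ) ^ (δ / 4) := by nlinarith
      calc 2 * (p : ℝ) ^ (-δ) = (p : ℝ) ^ (-δ) * 2 := mul_comm _ _
        _ ≤ _ := mul_le_mul_of_nonneg_left h4 h3.le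
    have h3 : 0 ≤ (L 0 : ℝ) * L 1 / p := by positivity
    calc (p : ℝ) ^ (-δ) * (L 0 * L 1 / p) = (2 * (p : ℝ) ^ (-δ)) * ((L 0 * L 1 / p) * (1 / 2)) := by
          ring
      _ ≤ (p : ℝ) ^ (-(δ / 2)) * ((L 0 * L 1 / p) * (((p : ℝ) - 1) / p)) := by gcongr
  · rw [Nat.cast_le]
    -- from the index to the point
    set W := (univ : Finset (ZMod p)ˣ).filter (fun i : (ZMod p)ˣ => ∃ z : Fin 2 → ℤ,
      (∀ j, M j < z j ∧ z j ≤ M j + L j ∧ ((z j : ℤ) : ZMod p) =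
        (![(i : ZMod p) - s, u * ((i⁻¹ : (ZMod p)ˣ) : ZMod p) - t] : Fin 2 → ZMod p) j) ∧
        Good κ (δ / 2) E p z) with hW
    have hch : ∀ i : (ZMod p)ˣ, i ∈ W → ∃ z : Fin 2 → ℤ,
      (∀ j, M j < z j ∧ z j ≤ M j + L j ∧ ((z j : ℤ) : ZMod p) =
        (![(i : ZMod p) - s, u * ((i⁻¹ : (ZMod p)ˣ) : ZMod p) - t] : Fin 2 → ZMod p) j) ∧
        Good κ (δ / 2) E p z := fun i hi => (mem_filter.mp hi).2
    choose! g hg using hch
    apply card_le_card_of_injOn g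
    · intro i hi
      have hi' := hg i hi
      have c0 := (hi'.1 0).2.2
      have c1 := (hi'.1 1).2.2
      simp only [Matrix.cons_val_zero, Matrix.cons_val_one] at c0 c1
      rw [mem_coe, mem_filter, Fintype.mem_piFinset]
      refine ⟨fun j => mem_Ioc.mpr ⟨(hi'.1 j).1, (hi'.1 j).2.1⟩, ?_, ?_⟩
      · rw [c0, c1, Units.val_inv_eq_inv_val]
        have : (i : ZMod p) ≠ 0 := i.ne_zero
        field_simp
        ring
      · intro e he hge m hm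
        obtain ⟨l, hl, hl2, hl3⟩ := hi'.2 e he hge m hm
        exact ⟨l, hl, hl2.trans (hmo _ _ (by linarith)), hl3⟩
    · intro i hi i' hi' h
      have c0 := ((hg i hi).1 0).2.2
      have c1 := ((hg i' hi').1 0).2.2
      simp only [Matrix.cons_val_zero] at c0 c1
      rw [h] at c0
      apply Units.ext
      have : (i : ZMod p) - s = (i' : ZMod p) - s := by rw [← c0, ← c1]
      linear_combination this

end Pool.Agent.L5helper97.RG
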