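import Pool.Agent.L5helper97.RG.Inv

set_option autoImplicit false

/-! # Record prime gaps at Laurent monomials and at inverses of sums -/

namespace Pool.Agent.L5helper97.RG

open Finset Filter

section Roots

variable {p : ℕ} [Fact p.Prime]

open scoped Classical in
lemma laurent_count (k H : ℕ) (β : Fin k → ZMod p) (h : Fin k → ℤ) (hH : ∀ j, |h j| ≤ H)
    (h0 : ∀ j, h j ≠ 0) (hinj : ∀ i j, β i ≠ 0 → β j ≠ 0 → h i = h j → i = j) (j₀ : Fin k)
    (hj₀ : β j₀ ≠ 0) (C : ZMod p) (B : Finset (ZMod p)ˣ) :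
    (B.filter (fun b => ∑ j, β j * ((b ^ h j : (ZMod p)ˣ) : ZMod p) = C)).card ≤ 2 * H := by
  set F : Polynomial (ZMod p) := ∑ j, Polynomial.C (β j) * Polynomial.X ^ (h j + H).toNat -
    Polynomial.C C * Polynomial.X ^ H with hF
  have hto : ∀ j, (((h j + H).toNat : ℕ) : ℤ) = h j + H := fun j =>
    Int.toNat_of_nonneg (by have := (abs_le.mp (hH j)).1; linarith)
  have hdeg : F.natDegree ≤ 2 * H := by
    rw [hF]
    refine (Polynomial.natDegree_sub_le _ _).trans (max_le ?_ ?_)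
    · refine Polynomial.natDegree_sum_le_of_forall_le _ _ fun j _ => ?_
      refine (Polynomial.natDegree_C_mul_X_pow_le _ _).trans ?_
      have h1 := (abs_le.mp (hH j)).2
      have h2 := hto j
      omega
    · refine (Polynomial.natDegree_C_mul_X_pow_le _ _).trans ?_
      omega
  have hcoef : F.coeff (h j₀ + H).toNat = β j₀ := by
    rw [hF, Polynomial.coeff_sub, Polynomial.finsetSum_coeff]
    simp only [Polynomial.coeff_C_mul, Polynomial.coeff_X_pow]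
    rw [sum_eq_single j₀]
    · have h1 : ¬ ((h j₀ + H).toNat = H) := by
        intro h2
        have h3 := hto j₀
        rw [h2] at h3
        exact h0 j₀ (by linarith)
      rw [if_pos rfl, if_neg h1]
      ring
    · intro j _ hj
      by_cases hb : β j = 0
      · rw [hb, zero_mul]
      · rw [if_neg, mul_zero]
        intro h2
        apply hj
        apply hinj j j₀ hb hj₀
        have h3 := hto j
        have h4 := hto j₀
        rw [← h2] at h3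
        linarith
    · intro h
      exact absurd (mem_univ _) h
  have hne : F ≠ 0 := by
    intro h
    rw [h, Polynomial.coeff_zero] at hcoef
    exact hj₀ hcoef.symm
  have hev : ∀ b : (ZMod p)ˣ, F.eval (b : ZMod p) =
      (b : ZMod p) ^ H * (∑ j, β j * ((b ^ h j : (ZMod p)ˣ) : ZMod p) - C) := by
    intro b
    rw [hF, Polynomial.eval_sub, Polynomial.eval_finsetSum, mul_sub, mul_sum]
    congr 1
    · refine sum_congr rfl fun j _ => ?_
      rw [Polynomial.eval_mul, Polynomial.eval_C, Polynomial.eval_pow, Polynomial.eval_X]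
      have h1 : (b : ZMod p) ^ (h j + H).toNat = (b : ZMod p) ^ H * ((b ^ h j : (ZMod p)ˣ) : ZMod p) := by
        have h2 : (b ^ (h j + H).toNat : (ZMod p)ˣ) = b ^ H * b ^ h j := by
          rw [← zpow_natCast, ← zpow_natCast, hto j, ← zpow_add]
          congr 1
          ring
        have h3 := congrArg (fun t : (ZMod p)ˣ => (t : ZMod p)) h2
        simpa using h3
      rw [h1]
      ring
    · rw [Polynomial.eval_mul, Polynomial.eval_C, Polynomial.eval_pow, Polynomial.eval_X]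
      ring
  have hle : (B.filter (fun b => ∑ j, β j * ((b ^ h j : (ZMod p)ˣ) : ZMod p) = C)).card ≤
      F.roots.toFinset.card := by
    apply card_le_card_of_injOn (fun b : (ZMod p)ˣ => (b : ZMod p))
    · intro b hb
      have hb' := (mem_filter.mp (mem_coe.mp hb)).2
      rw [mem_coe, Multiset.mem_toFinset, Polynomial.mem_roots hne, Polynomial.IsRoot.def, hev, hb']
      ring
    · intro b _ b' _ h
      exact Units.ext h
  exact hle.trans ((Multiset.toFinset_card_le _).trans ((Polynomial.card_roots' F).trans hdeg))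

open scoped Classical in
lemma pair_count (k H : ℕ) (α : Fin k → ZMod p) (hα : α ≠ 0) (σ : Fin k → ℤˣ) (h : Fin k → ℤ)
    (hH : ∀ j, |h j| ≤ H) (h0 : ∀ j, h j ≠ 0) (hinj : Function.Injective fun j => (σ j, h j))
    (B : Finset (ZMod p)ˣ) :
    (((B ×ˢ B).filter (fun q =>
      ∑ j, α j * ((if σ j = 1 then ((q.1 ^ h j : (ZMod p)ˣ) : ZMod p) else 0) -
        (if σ j = 1 then ((q.2 ^ h j : (ZMod p)ˣ) : ZMod p) else 0)) = 0 ∧
      ∑ j, α j * ((if σ j = 1 then 0 else ((q.1 ^ h j : (ZMod p)ˣ) : ZMod p)) -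
        (if σ j = 1 then 0 else ((q.2 ^ h j : (ZMod p)ˣ) : ZMod p))) = 0)).card) ≤
      2 * H * B.card := by
  obtain ⟨j₀, hj₀⟩ : ∃ j₀, α j₀ ≠ 0 := by
    by_contra hcon
    push Not at hcon
    exact hα (funext hcon)
  -- the coefficients with the sign of `j₀`
  set β : Fin k → ZMod p := fun j => if σ j = σ j₀ then α j else 0 with hβ
  have hβ0 : β j₀ ≠ 0 := by
    simp only [hβ, if_true]
    exact hj₀
  have hβi : ∀ i j, β i ≠ 0 → β j ≠ 0 → h i = h j → i = j := by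
    intro i j hi hj hij
    have h1 : σ i = σ j₀ := by
      by_contra hcon
      exact hi (by simp only [hβ, if_neg hcon])
    have h2 : σ j = σ j₀ := by
      by_contra hcon
      exact hj (by simp only [hβ, if_neg hcon])
    exact hinj (Prod.ext (h1.trans h2.symm) hij)
  have hkey : ∀ b b' : (ZMod p)ˣ,
      (∑ j, α j * ((if σ j = 1 then ((b ^ h j : (ZMod p)ˣ) : ZMod p) else 0) -
        (if σ j = 1 then ((b' ^ h j : (ZMod p)ˣ) : ZMod p) else 0)) = 0 ∧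
      ∑ j, α j * ((if σ j = 1 then 0 else ((b ^ h j : (ZMod p)ˣ) : ZMod p)) -
        (if σ j = 1 then 0 else ((b' ^ h j : (ZMod p)ˣ) : ZMod p))) = 0) →
      ∑ j, β j * ((b ^ h j : (ZMod p)ˣ) : ZMod p) = ∑ j, β j * ((b' ^ h j : (ZMod p)ˣ) : ZMod p) := by
    rintro b b' ⟨h1, h2⟩
    rw [← sub_eq_zero, ← sum_sub_distrib]
    by_cases hs : σ j₀ = 1
    · rw [← h1]
      refine sum_congr rfl fun j _ => ?_
      simp only [hβ, hs]
      split_ifs <;> ring
    · rw [← h2]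
      refine sum_congr rfl fun j _ => ?_
      have hs' : σ j₀ = -1 := (Int.units_eq_one_or _).resolve_left hs
      rcases Int.units_eq_one_or (σ j) with hj | hj
      · have h3 : ¬ (σ j = σ j₀) := by rw [hj, hs']; decide
        simp only [hβ, if_neg h3, if_pos hj]
        ring
      · have h3 : σ j = σ j₀ := by rw [hj, hs']
        have h4 : ¬ (σ j = 1) := by rw [hj]; decide
        simp only [hβ, if_pos h3, if_neg h4]
        ring
  calc _ ≤ ((B ×ˢ B).filter (fun q => ∑ j, β j * ((q.1 ^ h j : (ZMod p)ˣ) : ZMod p) =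
        ∑ j, β j * ((q.2 ^ h j : (ZMod p)ˣ) : ZMod p))).card := by
        apply card_le_card
        intro q hq
        rw [mem_filter] at hq ⊢
        exact ⟨hq.1, hkey q.1 q.2 hq.2⟩
    _ = ∑ b' ∈ B, (B.filter (fun b => ∑ j, β j * ((b ^ h j : (ZMod p)ˣ) : ZMod p) =
        ∑ j, β j * ((b' ^ h j : (ZMod p)ˣ) : ZMod p))).card := by
        rw [card_filter, sum_product_right]
        refine sum_congr rfl fun b' _ => ?_
        rw [card_filter]
    _ ≤ ∑ _b' ∈ B, 2 * H := sum_le_sum fun b' _ => laurent_count k H β h hH h0 hβi j₀ hβ0 _ B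
    _ = 2 * H * B.card := by rw [sum_const, smul_eq_mul, mul_comm]

end Roots

open scoped Classical in
/-- Laurent monomials `a ^ (±1) b ^ h` -/
theorem monomials (k H E : ℕ) (δ : ℝ) (hδ : 0 < δ) (hδ1 : δ ≤ 1) :
    ∃ κ : ℝ, 0 < κ ∧ ∃ p₀ : ℕ, ∀ (p : ℕ) [Fact p.Prime], p₀ ≤ p →
    ∀ (ε : ℝ) (σ : Fin k → ℤˣ) (h : Fin k → ℤ), (∀ j, |h j| ≤ H) → (∀ j, h j ≠ 0) →
      (Function.Injective fun j => (σ j, h j)) →
    ∀ (A B : Finset (ZMod p)ˣ) (u v : (ZMod p)ˣ → Fin k → ZMod p),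
    (p : ℝ) ^ (1 / 2 + 2 * ε) ≤ A.card → (p : ℝ) ^ (1 + 2 * ε + δ) ≤ A.card * B.card →
    ∀ (M : Fin k → ℤ) (L : Fin k → ℕ), (∀ j, (p : ℝ) ^ δ ≤ L j ∧ L j ≤ p) →
      (p : ℝ) ^ ((k : ℝ) - ε + δ) ≤ ∏ j, (L j : ℝ) →
    Many κ δ E p (B ×ˢ A) (fun q j => ((q.2 ^ ((σ j : ℤˣ) : ℤ) * q.1 ^ h j : (ZMod p)ˣ) : ZMod p) +
      u q.1 j + v q.2 j) M L := by
  obtain ⟨κ, hκ, p₁, hfam⟩ := families k E δ hδ hδ1
  have hev : ∀ᶠ x : ℝ in atTop, (2 * H : ℝ) ≤ x ^ δ :=
    (tendsto_rpow_atTop hδ).eventually_ge_atTop _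
  obtain ⟨x₀, hx₀⟩ := eventually_atTop.mp hev
  obtain ⟨p₂, hp₂⟩ := exists_nat_ge x₀
  refine ⟨κ, hκ, max p₁ p₂, ?_⟩
  intro p _ hpp ε σ h hH h0 hinj A B u v hA hAB M L hL hV
  have hp : p.Prime := Fact.out
  have g2 : (2 * H : ℝ) ≤ (p : ℝ) ^ δ :=
    hx₀ p (hp₂.trans (by exact_mod_cast (le_max_right _ _).trans hpp))
  have hp1 : (1 : ℝ) < p := by exact_mod_cast hp.one_lt
  have hp0 : (0 : ℝ) < p := by linarith
  have hABc : (0 : ℝ) < A.card * B.card := lt_of_lt_of_le (Real.rpow_pos_of_pos hp0 _) hAB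
  have hBne : B.Nonempty := by
    rw [nonempty_iff_ne_empty]
    intro h
    rw [h] at hABc
    simp at hABc
  have key := hfam p ((le_max_left _ _).trans hpp) ε (ZMod p)ˣ B A
    (fun b j => if σ j = 1 then ((b ^ h j : (ZMod p)ˣ) : ZMod p) else 0)
    (fun b j => if σ j = 1 then 0 else ((b ^ h j : (ZMod p)ˣ) : ZMod p)) u v hBne hA (by
      intro α hα
      have h1 := pair_count k H α hα σ h hH h0 hinj B
      have h2 : ((((B ×ˢ B).filter (fun q =>
        ∑ j, α j * ((if σ j = 1 then ((q.1 ^ h j : (ZMod p)ˣ) : ZMod p) else 0) -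
          (if σ j = 1 then ((q.2 ^ h j : (ZMod p)ˣ) : ZMod p) else 0)) = 0 ∧
        ∑ j, α j * ((if σ j = 1 then 0 else ((q.1 ^ h j : (ZMod p)ˣ) : ZMod p)) -
          (if σ j = 1 then 0 else ((q.2 ^ h j : (ZMod p)ˣ) : ZMod p))) = 0)).card : ℕ) : ℝ) ≤
          2 * H * B.card := by exact_mod_cast h1
      calc _ ≤ (2 * H * B.card : ℝ) * (p : ℝ) ^ (1 + 2 * ε) := by gcongr
        _ ≤ ((p : ℝ) ^ δ * B.card) * (p : ℝ) ^ (1 + 2 * ε) := by gcongr
        _ = B.card * (p : ℝ) ^ (1 + 2 * ε + δ) := by rw [Real.rpow_add hp0 (1 + 2 * ε)]; ring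
        _ ≤ B.card * (A.card * B.card) := by gcongr
        _ = _ := by ring) M L hL hV
  have e : (fun (q : (ZMod p)ˣ × (ZMod p)ˣ) (j : Fin k) =>
      (if σ j = 1 then ((q.1 ^ h j : (ZMod p)ˣ) : ZMod p) else 0) * (q.2 : ZMod p) +
      (if σ j = 1 then 0 else ((q.1 ^ h j : (ZMod p)ˣ) : ZMod p)) * ((q.2⁻¹ : (ZMod p)ˣ) : ZMod p) +
        u q.1 j + v q.2 j) = (fun (q : (ZMod p)ˣ × (ZMod p)ˣ) (j : Fin k) =>
      ((q.2 ^ ((σ j : ℤˣ) : ℤ) * q.1 ^ h j : (ZMod p)ˣ) : ZMod p) + u q.1 j + v q.2 j) := by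
    funext q j
    rcases Int.units_eq_one_or (σ j) with hj | hj
    · rw [hj, if_pos rfl, if_pos rfl]
      simp only [Units.val_one, zpow_one, Units.val_mul]
      ring
    · have h4 : ¬ ((-1 : ℤˣ) = 1) := by decide
      rw [hj, if_neg h4, if_neg h4]
      simp only [Units.val_neg, Units.val_one, zpow_neg, zpow_one, Units.val_mul]
      ring
  rw [e] at key
  exact key

open scoped Classical in
lemma many_swap {κ δ : ℝ} {E p k : ℕ} {ι ι' : Type} (A : Finset ι) (B : Finset ι')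
    (R : ι → ι' → Fin k → ZMod p) (M : Fin k → ℤ) (L : Fin k → ℕ)
    (h : Many κ δ E p (B ×ˢ A) (fun q => R q.2 q.1) M L) :
    Many κ δ E p (A ×ˢ B) (fun q => R q.1 q.2) M L := by
  unfold Many at h ⊢
  have h1 : (B ×ˢ A).card = (A ×ˢ B).card := by rw [card_product, card_product, mul_comm]
  rw [h1] at h
  refine h.trans ?_
  rw [Nat.cast_le]
  apply card_le_card_of_injOn Prod.swap
  · intro q hq
    have hq' := mem_filter.mp (mem_coe.mp hq)
    rw [mem_coe, mem_filter]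
    refine ⟨?_, hq'.2⟩
    have := mem_product.mp hq'.1
    exact mem_product.mpr ⟨this.2, this.1⟩
  · exact Prod.swap_injective.injOn

open scoped Classical in
/-- the four residues `a b`, `a / b`, `b / a`, `1 / (a b)` -/
theorem four (E : ℕ) (δ : ℝ) (hδ : 0 < δ) (hδ1 : δ ≤ 1) :
    ∃ κ : ℝ, 0 < κ ∧ ∃ p₀ : ℕ, ∀ (p : ℕ) [Fact p.Prime], p₀ ≤ p →
    ∀ (ε : ℝ) (A B : Finset (ZMod p)ˣ) (u v : (ZMod p)ˣ → Fin 4 → ZMod p),
    (p : ℝ) ^ (1 + 4 * ε) ≤ A.card * B.card →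
    ∀ (M : Fin 4 → ℤ) (L : Fin 4 → ℕ), (∀ j, (p : ℝ) ^ δ ≤ L j ∧ L j ≤ p) →
      (p : ℝ) ^ (4 - ε + δ) ≤ ∏ j, (L j : ℝ) →
    Many κ δ E p (A ×ˢ B) (fun q j => ((![q.1 * q.2, q.1 / q.2, q.2 / q.1, (q.1 * q.2)⁻¹] j :
      (ZMod p)ˣ) : ZMod p) + u q.1 j + v q.2 j) M L := by
  obtain ⟨κ, hκ, p₁, hmon⟩ := monomials 4 1 E δ hδ hδ1
  refine ⟨κ, hκ, p₁, ?_⟩
  intro p _ hpp ε A B u v hAB M L hL hV
  have hp : p.Prime := Fact.out
  have hp1 : (1 : ℝ) < p := by exact_mod_cast hp.one_lt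
  have hp0 : (0 : ℝ) < p := by linarith
  have hmo : ∀ x y : ℝ, x ≤ y → (p : ℝ) ^ x ≤ (p : ℝ) ^ y := fun x y h =>
    Real.rpow_le_rpow_of_exponent_le hp1.le h
  -- `ε ≥ δ`
  have hε : δ ≤ ε := by
    have h1 : ∏ j, (L j : ℝ) ≤ (p : ℝ) ^ (4 : ℝ) := by
      calc ∏ j, (L j : ℝ) ≤ ∏ _j : Fin 4, (p : ℝ) :=
            prod_le_prod (fun j _ => Nat.cast_nonneg _) fun j _ => by exact_mod_cast (hL j).2
        _ = (p : ℝ) ^ (4 : ℝ) := by
            rw [prod_const, card_univ, Fintype.card_fin, ← Real.rpow_natCast]; norm_num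
    have h2 := (Real.rpow_le_rpow_left_iff hp1).mp (hV.trans h1)
    linarith
  have hAB2 : (p : ℝ) ^ (1 + 2 * ε + δ) ≤ A.card * B.card := (hmo _ _ (by linarith)).trans hAB
  have hV' : (p : ℝ) ^ (((4 : ℕ) : ℝ) - ε + δ) ≤ ∏ j, (L j : ℝ) := by
    rw [show ((4 : ℕ) : ℝ) = 4 by norm_num]; exact hV
  have hhalf : (p : ℝ) ^ (1 / 2 + 2 * ε) ≤ A.card ∨ (p : ℝ) ^ (1 / 2 + 2 * ε) ≤ B.card := by
    by_contra hcon
    push Not at hcon
    have h1 : (A.card : ℝ) * B.card < (p : ℝ) ^ (1 / 2 + 2 * ε) * (p : ℝ) ^ (1 / 2 + 2 * ε) :=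
      mul_lt_mul'' hcon.1 hcon.2 (Nat.cast_nonneg _) (Nat.cast_nonneg _)
    rw [← Real.rpow_add hp0] at h1
    have h2 : (1 / 2 + 2 * ε + (1 / 2 + 2 * ε)) = 1 + 4 * ε := by ring
    rw [h2] at h1
    linarith
  set h : Fin 4 → ℤ := ![1, -1, 1, -1] with hh
  have hH : ∀ j, |h j| ≤ ((1 : ℕ) : ℤ) := by
    intro j
    fin_cases j <;> simp [hh]
  have h0 : ∀ j, h j ≠ 0 := by
    intro j
    fin_cases j <;> simp [hh]
  rcases hhalf with hA | hB
  · apply many_swap A B (fun a b j => ((![a * b, a / b, b / a, (a * b)⁻¹] j : (ZMod p)ˣ) : ZMod p) +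
      u a j + v b j)
    have key := hmon p hpp ε ![1, 1, -1, -1] h hH h0 (by decide) A B v u hA hAB2 M L hL hV'
    refine (iff_of_eq ?_).mp key
    congr 1
    funext q j
    have e : ((q.2 ^ (((![1, 1, -1, -1] : Fin 4 → ℤˣ) j : ℤˣ) : ℤ) * q.1 ^ h j : (ZMod p)ˣ)) =
        (![q.2 * q.1, q.2 / q.1, q.1 / q.2, (q.2 * q.1)⁻¹] j : (ZMod p)ˣ) := by
      fin_cases j
      · simp [hh]
      · simp [hh, div_eq_mul_inv]
      · simp [hh, div_eq_mul_inv, mul_comm]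
      · simp [hh, mul_comm]
    rw [e]
    ring
  · have key := hmon p hpp ε ![1, -1, 1, -1] ![1, 1, -1, -1] (by
        intro j
        fin_cases j <;> simp) (by
        intro j
        fin_cases j <;> simp) (by decide) B A u v hB (hAB2.trans (le_of_eq (mul_comm _ _))) M L hL hV'
    refine (iff_of_eq ?_).mp key
    congr 1
    funext q j
    have e : ((q.2 ^ (((![1, -1, 1, -1] : Fin 4 → ℤˣ) j : ℤˣ) : ℤ) *
        q.1 ^ (![1, 1, -1, -1] : Fin 4 → ℤ) j : (ZMod p)ˣ)) =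
        (![q.1 * q.2, q.1 / q.2, q.2 / q.1, (q.1 * q.2)⁻¹] j : (ZMod p)ˣ) := by
      fin_cases j
      · simp [mul_comm]
      · simp [div_eq_mul_inv, mul_comm]
      · simp [div_eq_mul_inv]
      · simp [mul_comm]
    rw [e]

open scoped Classical in
/-- the inverses of the sums -/
theorem inverse_sums (E : ℕ) (δ : ℝ) (hδ : 0 < δ) (hδ1 : δ ≤ 1) :
    ∃ κ : ℝ, 0 < κ ∧ ∃ p₀ : ℕ, ∀ (p : ℕ) [Fact p.Prime], p₀ ≤ p →
    ∀ (ε : ℝ) (A B : Finset (ZMod p)) (u v : ZMod p → ZMod p),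
    (p : ℝ) ^ (1 + 4 * ε) ≤ A.card * B.card →
    ∀ (M : ℤ) (L : ℕ), L ≤ p → (p : ℝ) ^ (1 - ε + δ) ≤ L →
    Many κ δ E p (A ×ˢ B) (fun q (_ : Fin 1) => (q.1 + q.2)⁻¹ + u q.1 + v q.2)
      (fun _ => M) (fun _ => L) := by
  obtain ⟨κ, hκ, p₁, h⟩ := many_of 1 E δ hδ hδ1
  have hev : ∀ᶠ x : ℝ in atTop, 9 ≤ x ^ (δ / 2) :=
    (tendsto_rpow_atTop (by positivity)).eventually_ge_atTop 9
  obtain ⟨x₀, hx₀⟩ := eventually_atTop.mp hev
  obtain ⟨p₂, hp₂⟩ := exists_nat_ge x₀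
  refine ⟨κ, hκ, max p₁ p₂, ?_⟩
  intro p _ hpp ε A B u v hAB M L hLp hLε
  have hp : p.Prime := Fact.out
  have g2 : 9 ≤ (p : ℝ) ^ (δ / 2) :=
    hx₀ p (hp₂.trans (by exact_mod_cast (le_max_right _ _).trans hpp))
  have hp1 : (1 : ℝ) < p := by exact_mod_cast hp.one_lt
  have hp0 : (0 : ℝ) < p := by linarith
  have hmo : ∀ x y : ℝ, x ≤ y → (p : ℝ) ^ x ≤ (p : ℝ) ^ y := fun x y h =>
    Real.rpow_le_rpow_of_exponent_le hp1.le h
  have hLp' : (L : ℝ) ≤ p := by exact_mod_cast hLp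
  have hε : δ ≤ ε := by
    have h1 : (p : ℝ) ^ (1 - ε + δ) ≤ (p : ℝ) ^ (1 : ℝ) := by
      rw [Real.rpow_one]; exact hLε.trans hLp'
    have h2 := (Real.rpow_le_rpow_left_iff hp1).mp h1
    linarith
  have hcardp : ∀ A : Finset (ZMod p), (A.card : ℝ) ≤ p := by
    intro A
    have h1 := card_le_univ A
    rw [ZMod.card] at h1
    exact_mod_cast h1
  have hε1 : ε ≤ 1 := by
    have h1 : (p : ℝ) ^ (1 + 4 * ε) ≤ (p : ℝ) ^ (2 : ℝ) := by
      calc _ ≤ (A.card : ℝ) * B.card := hAB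
        _ ≤ p * p := mul_le_mul (hcardp A) (hcardp B) (Nat.cast_nonneg _) hp0.le
        _ = (p : ℝ) ^ (2 : ℝ) := by
            rw [show (2 : ℝ) = ((2 : ℕ) : ℝ) by norm_num, Real.rpow_natCast]; ring
    have h2 := (Real.rpow_le_rpow_left_iff hp1).mp h1
    linarith
  have hside : ∀ _j : Fin 1, (p : ℝ) ^ δ ≤ L ∧ L ≤ p := fun _ =>
    ⟨(hmo _ _ (by linarith)).trans hLε, hLp⟩
  have hV : (p : ℝ) ^ (((1 : ℕ) : ℝ) - ε + δ) ≤ ∏ _j : Fin 1, (L : ℝ) := by
    rw [prod_const, card_univ, Fintype.card_fin, pow_one, Nat.cast_one]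
    exact hLε
  have hs1 : (1 : ℝ) ≤ Real.sqrt p := by
    rw [Real.one_le_sqrt]; exact hp1.le
  obtain ⟨a, ha⟩ : ∃ a : ℝ, a = (p : ℝ) ^ (2 * ε) := ⟨_, rfl⟩
  have ha0 : 0 < a := by rw [ha]; exact Real.rpow_pos_of_pos hp0 _
  have core : ∀ (A B : Finset (ZMod p)) (u v : ZMod p → ZMod p),
      (p : ℝ) ^ (1 + 4 * ε) ≤ A.card * B.card → (p : ℝ) ^ (1 / 2 + 2 * ε) ≤ B.card →
      Many κ δ E p (A ×ˢ B) (fun q (_ : Fin 1) => (q.1 + q.2)⁻¹ + u q.1 + v q.2)
        (fun _ => M) (fun _ => L) := by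
    intro A B u v hAB hB
    have hABc : (0 : ℝ) < A.card * B.card := lt_of_lt_of_le (Real.rpow_pos_of_pos hp0 _) hAB
    have hAne : A.Nonempty := by
      rw [nonempty_iff_ne_empty]
      intro h
      rw [h] at hABc
      simp at hABc
    have hBne : B.Nonempty := by
      rw [nonempty_iff_ne_empty]
      intro h
      rw [h] at hABc
      simp at hABc
    have hScard : (((A ×ˢ B).card : ℕ) : ℝ) = A.card * B.card := by
      rw [card_product]; push_cast; rfl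
    refine h p ((le_max_left _ _).trans hpp) ε (ZMod p × ZMod p) (A ×ˢ B) _ (hAne.product hBne) ?_
      (fun _ => M) (fun _ => L) hside hV
    intro α hα
    have hα0 : α 0 ≠ 0 := by
      intro h0
      apply hα
      funext j
      rw [Subsingleton.elim j 0]
      exact h0
    have h1 := bias_inv_sq (r := 1) A B u v (α 0) hα0 rfl
    rw [hScard, ← ha]
    simp only [Fin.sum_univ_one]
    have h3 : Real.sqrt p * a ≤ B.card := by
      rw [Real.sqrt_eq_rpow, ha, ← Real.rpow_add hp0]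
      exact hB
    have h4 : (p : ℝ) * a ≤ A.card * B.card := by
      refine le_trans ?_ hAB
      rw [ha, ← Real.rpow_one_add' hp0.le (by linarith)]
      exact hmo _ _ (by linarith)
    calc _ ≤ ((B.card : ℝ) * ((A.card : ℝ) * p + (A.card : ℝ) ^ 2 * (2 * Real.sqrt p + 3))) * a :=
          mul_le_mul_of_nonneg_right h1 ha0.le
      _ ≤ ((B.card : ℝ) * ((A.card : ℝ) * p + (A.card : ℝ) ^ 2 * (5 * Real.sqrt p))) * a := by
          gcongr
          linarith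
      _ = (B.card : ℝ) * (A.card * (p * a) + (A.card : ℝ) ^ 2 * (5 * (Real.sqrt p * a))) := by ring
      _ ≤ (B.card : ℝ) * (A.card * (A.card * B.card) + (A.card : ℝ) ^ 2 * (5 * B.card)) := by gcongr
      _ = (A.card * B.card : ℝ) ^ 2 * 6 := by ring
      _ ≤ _ := by gcongr; linarith
  have hhalf : (p : ℝ) ^ (1 / 2 + 2 * ε) ≤ A.card ∨ (p : ℝ) ^ (1 / 2 + 2 * ε) ≤ B.card := by
    by_contra hcon
    push Not at hcon
    have h1 : (A.card : ℝ) * B.card < (p : ℝ) ^ (1 / 2 + 2 * ε) * (p : ℝ) ^ (1 / 2 + 2 * ε) :=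
      mul_lt_mul'' hcon.1 hcon.2 (Nat.cast_nonneg _) (Nat.cast_nonneg _)
    rw [← Real.rpow_add hp0] at h1
    have h2 : (1 / 2 + 2 * ε + (1 / 2 + 2 * ε)) = 1 + 4 * ε := by ring
    rw [h2] at h1
    linarith
  rcases hhalf with hA | hB
  · apply many_swap A B (fun a b (_ : Fin 1) => (a + b)⁻¹ + u a + v b)
    have key := core B A v u (hAB.trans (le_of_eq (mul_comm _ _))) hA
    refine (iff_of_eq ?_).mp key
    congr 1
    funext q j
    rw [add_comm q.2 q.1]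
    ring
  · exact core A B u v hAB hB

end Pool.Agent.L5helper97.RG
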