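import Pool.Agent.N39.RG.Pairs
import Pool.Agent.N39.RG.BiasPoly
import Pool.Agent.H498R2.SM_T8

set_option autoImplicit false

/-! # Exponential sums over families `c_x y + d_x / y + u(x) + v(y)` -/

namespace Pool.Agent.L5helper97.RG

open Finset
open Pool.Agent.N39.RG (psi_add psi_norm psi_conj mean_square_gen)

variable {p : ℕ} [Fact p.Prime]

lemma sum_units (f : ZMod p → ℂ) : ∑ y : (ZMod p)ˣ, f (y : ZMod p) = ∑ y ∈ univ.erase (0 : ZMod p), f y := by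
  classical
  refine Finset.sum_bij (fun y _ => (y : ZMod p)) ?_ ?_ ?_ ?_
  · intro y _
    exact mem_erase.mpr ⟨y.ne_zero, mem_univ _⟩
  · intro a _ b _ h
    exact Units.ext h
  · intro b hb
    exact ⟨Units.mk0 b (ne_of_mem_erase hb), mem_univ _, rfl⟩
  · intro _ _
    rfl

lemma ram (a : ZMod p) (ha : a ≠ 0) : ‖∑ y : (ZMod p)ˣ, (ZMod.stdAddChar (a * (y : ZMod p)) : ℂ)‖ ≤ 1 := by
  classical
  rw [sum_units (fun y => (ZMod.stdAddChar (a * y) : ℂ))]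
  have h1 : ∑ y : ZMod p, (ZMod.stdAddChar (a * y) : ℂ) = 0 := by
    have h2 := AddChar.sum_mulShift a (ZMod.isPrimitive_stdAddChar p)
    rw [if_neg ha] at h2
    rw [← Nat.cast_zero, ← h2]
    refine sum_congr rfl fun y _ => ?_
    rw [mul_comm]
  have h3 := add_sum_erase univ (fun y : ZMod p => (ZMod.stdAddChar (a * y) : ℂ)) (mem_univ 0)
  rw [h1] at h3
  have h4 : ∑ y ∈ univ.erase (0 : ZMod p), (ZMod.stdAddChar (a * y) : ℂ) = -1 := by
    have : (ZMod.stdAddChar (a * (0 : ZMod p)) : ℂ) = 1 := by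
      rw [mul_zero, AddChar.map_zero_eq_one]
    rw [this] at h3
    linear_combination h3
  rw [h4]
  simp

lemma one_le_two_sqrt : (1 : ℝ) ≤ 2 * Real.sqrt p := by
  have h1 : (1 : ℝ) ≤ Real.sqrt p := by
    rw [Real.one_le_sqrt]
    exact_mod_cast (Fact.out : p.Prime).one_le
  linarith

/-- Kloosterman sums, possibly degenerate -/
lemma kl (a b : ZMod p) (h : ¬ (a = 0 ∧ b = 0)) : ‖∑ y : (ZMod p)ˣ, (ZMod.stdAddChar
    (a * (y : ZMod p) + b * ((y⁻¹ : (ZMod p)ˣ) : ZMod p)) : ℂ)‖ ≤ 2 * Real.sqrt p := by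
  classical
  by_cases ha : a = 0
  · have hb : b ≠ 0 := fun hb => h ⟨ha, hb⟩
    have h1 : ∑ y : (ZMod p)ˣ, (ZMod.stdAddChar
        (a * (y : ZMod p) + b * ((y⁻¹ : (ZMod p)ˣ) : ZMod p)) : ℂ) =
        ∑ y : (ZMod p)ˣ, (ZMod.stdAddChar (b * (y : ZMod p)) : ℂ) := by
      rw [← Equiv.sum_comp (Equiv.inv (ZMod p)ˣ)
        (fun y : (ZMod p)ˣ => (ZMod.stdAddChar (b * (y : ZMod p)) : ℂ))]
      refine sum_congr rfl fun y _ => ?_
      rw [ha, zero_mul, zero_add, Equiv.inv_apply]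
    rw [h1]
    exact (ram b hb).trans one_le_two_sqrt
  · by_cases hb : b = 0
    · have h1 : ∑ y : (ZMod p)ˣ, (ZMod.stdAddChar
        (a * (y : ZMod p) + b * ((y⁻¹ : (ZMod p)ˣ) : ZMod p)) : ℂ) =
        ∑ y : (ZMod p)ˣ, (ZMod.stdAddChar (a * (y : ZMod p)) : ℂ) := by
        refine sum_congr rfl fun y _ => ?_
        rw [hb, zero_mul, add_zero]
      rw [h1]
      exact (ram a ha).trans one_le_two_sqrt
    · exact Pool.Agent.H498R2.kloosterman_prime p a b ha hb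

/-- general Cauchy-Schwarz step: `b x y + v y` over `X × Y` -/
lemma bias_gen {ι κ : Type} [Fintype κ] [DecidableEq κ] (X : Finset ι) (Y : Finset κ)
    (b : ι → κ → ZMod p) (v : κ → ZMod p) :
    ‖∑ z ∈ X ×ˢ Y, (ZMod.stdAddChar (b z.1 z.2 + v z.2) : ℂ)‖ ^ 2 ≤
      Y.card * ∑ q ∈ X ×ˢ X, ‖∑ y : κ, (ZMod.stdAddChar (b q.1 y - b q.2 y) : ℂ)‖ := by
  classical
  have h1 : ∑ z ∈ X ×ˢ Y, (ZMod.stdAddChar (b z.1 z.2 + v z.2) : ℂ) =
      ∑ y ∈ Y, (ZMod.stdAddChar (v y) : ℂ) * ∑ x ∈ X, (ZMod.stdAddChar (b x y) : ℂ) := by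
    rw [sum_product_right]
    refine sum_congr rfl fun y _ => ?_
    rw [mul_sum]
    refine sum_congr rfl fun x _ => ?_
    rw [← psi_add, add_comm]
  rw [h1]
  have h2 : ‖∑ y ∈ Y, (ZMod.stdAddChar (v y) : ℂ) *
      ∑ x ∈ X, (ZMod.stdAddChar (b x y) : ℂ)‖ ≤ ∑ y ∈ Y, ‖∑ x ∈ X, (ZMod.stdAddChar (b x y) : ℂ)‖ := by
    refine (norm_sum_le _ _).trans (le_of_eq (sum_congr rfl fun y _ => ?_))
    rw [norm_mul, psi_norm, one_mul]
  have h3 : (∑ y ∈ Y, ‖∑ x ∈ X, (ZMod.stdAddChar (b x y) : ℂ)‖) ^ 2 ≤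
      Y.card * ∑ y ∈ Y, ‖∑ x ∈ X, (ZMod.stdAddChar (b x y) : ℂ)‖ ^ 2 := sq_sum_le_card_mul_sum_sq
  have h4 : ∑ y ∈ Y, ‖∑ x ∈ X, (ZMod.stdAddChar (b x y) : ℂ)‖ ^ 2 ≤
      ∑ y : κ, ‖∑ x ∈ X, (ZMod.stdAddChar (b x y) : ℂ)‖ ^ 2 :=
    sum_le_sum_of_subset_of_nonneg (subset_univ _) fun _ _ _ => by positivity
  have h5 := mean_square_gen X b
  calc _ ≤ (∑ y ∈ Y, ‖∑ x ∈ X, (ZMod.stdAddChar (b x y) : ℂ)‖) ^ 2 :=
        pow_le_pow_left₀ (norm_nonneg _) h2 2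
    _ ≤ _ := h3
    _ ≤ Y.card * ∑ q ∈ X ×ˢ X, ‖∑ y : κ, (ZMod.stdAddChar (b q.1 y - b q.2 y) : ℂ)‖ := by
        gcongr
        exact h4.trans h5

open scoped Classical in
/-- the exponential sums of the family `c_x y + d_x / y + u(x) + v(y)` -/
theorem bias_kl_sq {ι : Type} (X : Finset ι) (r : ℕ) (c d u : ι → Fin r → ZMod p)
    (Y : Finset (ZMod p)ˣ) (v : (ZMod p)ˣ → Fin r → ZMod p) (α : Fin r → ZMod p) :
    ‖∑ z ∈ X ×ˢ Y, (ZMod.stdAddChar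
        (∑ j, α j * (c z.1 j * (z.2 : ZMod p) + d z.1 j * ((z.2⁻¹ : (ZMod p)ˣ) : ZMod p) +
          u z.1 j + v z.2 j)) : ℂ)‖ ^ 2 ≤
      Y.card * ((((X ×ˢ X).filter (fun q => ∑ j, α j * (c q.1 j - c q.2 j) = 0 ∧
          ∑ j, α j * (d q.1 j - d q.2 j) = 0)).card : ℝ) * p +
        (X.card : ℝ) ^ 2 * (2 * Real.sqrt p)) := by
  set b : ι → (ZMod p)ˣ → ZMod p := fun x y => ∑ j, α j * u x j + ((∑ j, α j * c x j) * (y : ZMod p) +
    (∑ j, α j * d x j) * ((y⁻¹ : (ZMod p)ˣ) : ZMod p)) with hb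
  have h0 : ∑ z ∈ X ×ˢ Y, (ZMod.stdAddChar
        (∑ j, α j * (c z.1 j * (z.2 : ZMod p) + d z.1 j * ((z.2⁻¹ : (ZMod p)ˣ) : ZMod p) +
          u z.1 j + v z.2 j)) : ℂ) =
      ∑ z ∈ X ×ˢ Y, (ZMod.stdAddChar (b z.1 z.2 + ∑ j, α j * v z.2 j) : ℂ) := by
    refine sum_congr rfl fun z _ => ?_
    congr 1
    rw [hb]
    simp only [sum_mul]
    rw [← sum_add_distrib, ← sum_add_distrib, ← sum_add_distrib]
    refine sum_congr rfl fun j _ => ?_
    ring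
  rw [h0]
  refine (bias_gen X Y b (fun y => ∑ j, α j * v y j)).trans ?_
  apply mul_le_mul_of_nonneg_left _ (Nat.cast_nonneg _)
  have h6 : ∀ q ∈ X ×ˢ X, ‖∑ y : (ZMod p)ˣ, (ZMod.stdAddChar (b q.1 y - b q.2 y) : ℂ)‖ ≤
      (if ∑ j, α j * (c q.1 j - c q.2 j) = 0 ∧ ∑ j, α j * (d q.1 j - d q.2 j) = 0 then (p : ℝ)
        else 0) + 2 * Real.sqrt p := by
    intro q _
    have hsq : 0 ≤ 2 * Real.sqrt (p : ℝ) := by positivity
    split_ifs with hdeg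
    · refine (norm_sum_le _ _).trans ?_
      rw [sum_congr rfl fun y _ => psi_norm _, sum_const, card_univ, ZMod.card_units, nsmul_eq_mul,
        mul_one]
      have : ((p - 1 : ℕ) : ℝ) ≤ p := by exact_mod_cast Nat.sub_le _ _
      linarith
    · rw [zero_add]
      have hG : ∀ y : (ZMod p)ˣ, b q.1 y - b q.2 y = (∑ j, α j * u q.1 j - ∑ j, α j * u q.2 j) +
          ((∑ j, α j * (c q.1 j - c q.2 j)) * (y : ZMod p) +
          (∑ j, α j * (d q.1 j - d q.2 j)) * ((y⁻¹ : (ZMod p)ˣ) : ZMod p)) := by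
        intro y
        rw [hb]
        simp only [mul_sub, sum_sub_distrib]
        ring
      have e2 : ∑ y : (ZMod p)ˣ, (ZMod.stdAddChar (b q.1 y - b q.2 y) : ℂ) =
          (ZMod.stdAddChar (∑ j, α j * u q.1 j - ∑ j, α j * u q.2 j) : ℂ) *
            ∑ y : (ZMod p)ˣ, (ZMod.stdAddChar ((∑ j, α j * (c q.1 j - c q.2 j)) * (y : ZMod p) +
              (∑ j, α j * (d q.1 j - d q.2 j)) * ((y⁻¹ : (ZMod p)ˣ) : ZMod p)) : ℂ) := by
        rw [mul_sum]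
        refine sum_congr rfl fun y _ => ?_
        rw [← psi_add, hG]
      rw [e2, norm_mul, psi_norm, one_mul]
      exact kl _ _ hdeg
  refine (sum_le_sum h6).trans (le_of_eq ?_)
  rw [sum_add_distrib, ← sum_filter, sum_const, sum_const, card_product, nsmul_eq_mul,
    nsmul_eq_mul]
  push_cast
  ring

/-- the difference of two inverses of sums -/
lemma inv_sums (D β : ZMod p) (hD : D ≠ 0) (hβ : β ≠ 0) (s : ZMod p) :
    ‖∑ a : ZMod p, (ZMod.stdAddChar (β * ((a + s + D)⁻¹ - (a + s)⁻¹)) : ℂ)‖ ≤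
      2 * Real.sqrt p + 3 := by
  classical
  have h1 : ∑ a : ZMod p, (ZMod.stdAddChar (β * ((a + s + D)⁻¹ - (a + s)⁻¹)) : ℂ) =
      ∑ a : ZMod p, (ZMod.stdAddChar (β * ((a + D)⁻¹ - a⁻¹)) : ℂ) := by
    rw [← Equiv.sum_comp (Equiv.addRight s)
      (fun a => (ZMod.stdAddChar (β * ((a + D)⁻¹ - a⁻¹)) : ℂ))]
    rfl
  rw [h1]
  -- remove `a = 0` and `a = -D`
  set T : Finset (ZMod p) := (univ.erase 0).erase (-D) with hT
  have h2 : ∑ a : ZMod p, (ZMod.stdAddChar (β * ((a + D)⁻¹ - a⁻¹)) : ℂ) =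
      (ZMod.stdAddChar (β * ((0 + D)⁻¹ - (0 : ZMod p)⁻¹)) : ℂ) +
      ((ZMod.stdAddChar (β * ((-D + D)⁻¹ - (-D)⁻¹)) : ℂ) +
        ∑ a ∈ T, (ZMod.stdAddChar (β * ((a + D)⁻¹ - a⁻¹)) : ℂ)) := by
    rw [hT, add_sum_erase (univ.erase 0)
      (fun a => (ZMod.stdAddChar (β * ((a + D)⁻¹ - a⁻¹)) : ℂ))
      (mem_erase.mpr ⟨neg_ne_zero.mpr hD, mem_univ _⟩),
      add_sum_erase univ (fun a => (ZMod.stdAddChar (β * ((a + D)⁻¹ - a⁻¹)) : ℂ)) (mem_univ 0)]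
  -- the substitution `z = 1 + D / a`
  have h3 : ∑ a ∈ T, (ZMod.stdAddChar (β * ((a + D)⁻¹ - a⁻¹)) : ℂ) =
      ∑ z ∈ (univ.erase (0 : ZMod p)).erase 1,
        (ZMod.stdAddChar (2 * β * D⁻¹ + ((-β * D⁻¹) * z + (-β * D⁻¹) * z⁻¹)) : ℂ) := by
    refine Finset.sum_bij (fun a _ => 1 + D * a⁻¹) ?_ ?_ ?_ ?_
    · intro a ha
      rw [hT, mem_erase, mem_erase] at ha
      have ha0 := ha.2.1
      rw [mem_erase, mem_erase]
      refine ⟨?_, ?_, mem_univ _⟩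
      · intro h
        have : D * a⁻¹ = 0 := by linear_combination h
        rcases mul_eq_zero.mp this with h | h
        · exact hD h
        · exact inv_ne_zero ha0 h
      · intro h
        apply ha.1
        have : (1 + D * a⁻¹) * a = 0 := by rw [h, zero_mul]
        have e : (1 + D * a⁻¹) * a = a + D := by field_simp
        rw [e] at this
        linear_combination this
    · intro a ha b hb h
      have h5 : D * a⁻¹ = D * b⁻¹ := by linear_combination h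
      exact inv_injective (mul_left_cancel₀ hD h5)
    · intro z hz
      rw [mem_erase, mem_erase] at hz
      have hz1 : z - 1 ≠ 0 := sub_ne_zero.mpr hz.1
      refine ⟨D * (z - 1)⁻¹, ?_, ?_⟩
      · rw [hT, mem_erase, mem_erase]
        refine ⟨?_, mul_ne_zero hD (inv_ne_zero hz1), mem_univ _⟩
        intro h
        apply hz.2.1
        have h5 : D * (z - 1)⁻¹ * (z - 1) = -D * (z - 1) := by rw [h]
        have h6 : D * (z - 1)⁻¹ * (z - 1) = D := by field_simp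
        rw [h6] at h5
        have h7 : D * z = 0 := by linear_combination h5
        rcases mul_eq_zero.mp h7 with h | h
        · exact absurd h hD
        · exact h
      · rw [mul_inv, inv_inv, ← mul_assoc, mul_inv_cancel₀ hD]
        ring
    · intro a ha
      rw [hT, mem_erase, mem_erase] at ha
      have ha0 := ha.2.1
      have haD : a + D ≠ 0 := fun h => ha.1 (by linear_combination h)
      congr 1
      have e1 : (1 + D * a⁻¹)⁻¹ = a * (a + D)⁻¹ := by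
        have e : 1 + D * a⁻¹ = (a + D) * a⁻¹ := by field_simp
        rw [e, mul_inv, inv_inv, mul_comm]
      rw [e1]
      field_simp
      ring
  -- the Kloosterman sum
  have h4 : ∑ z ∈ (univ.erase (0 : ZMod p)).erase 1,
        (ZMod.stdAddChar (2 * β * D⁻¹ + ((-β * D⁻¹) * z + (-β * D⁻¹) * z⁻¹)) : ℂ) =
      (ZMod.stdAddChar (2 * β * D⁻¹) : ℂ) *
        ∑ y : (ZMod p)ˣ, (ZMod.stdAddChar ((-β * D⁻¹) * (y : ZMod p) + (-β * D⁻¹) *
          ((y⁻¹ : (ZMod p)ˣ) : ZMod p)) : ℂ) - 1 := by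
    have e1 := sum_units (p := p) (fun z => (ZMod.stdAddChar ((-β * D⁻¹) * z + (-β * D⁻¹) * z⁻¹) : ℂ))
    have e2 : ∑ y : (ZMod p)ˣ, (ZMod.stdAddChar ((-β * D⁻¹) * (y : ZMod p) + (-β * D⁻¹) *
          ((y⁻¹ : (ZMod p)ˣ) : ZMod p)) : ℂ) = ∑ y : (ZMod p)ˣ,
          (ZMod.stdAddChar ((-β * D⁻¹) * (y : ZMod p) + (-β * D⁻¹) * (y : ZMod p)⁻¹) : ℂ) := by
      refine sum_congr rfl fun y _ => ?_
      rw [Units.val_inv_eq_inv_val]
    rw [e2, e1, mul_sum]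
    have e3 := add_sum_erase (univ.erase (0 : ZMod p))
      (fun z => (ZMod.stdAddChar (2 * β * D⁻¹ + ((-β * D⁻¹) * z + (-β * D⁻¹) * z⁻¹)) : ℂ))
      (mem_erase.mpr ⟨one_ne_zero, mem_univ _⟩ : (1 : ZMod p) ∈ univ.erase (0 : ZMod p))
    have e4 : (ZMod.stdAddChar (2 * β * D⁻¹ + ((-β * D⁻¹) * 1 + (-β * D⁻¹) * (1 : ZMod p)⁻¹)) : ℂ) =
        1 := by
      have : 2 * β * D⁻¹ + ((-β * D⁻¹) * 1 + (-β * D⁻¹) * (1 : ZMod p)⁻¹) = 0 := by
        rw [inv_one]; ring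
      rw [this, AddChar.map_zero_eq_one]
    rw [e4] at e3
    rw [sum_congr rfl fun z _ => (psi_add (2 * β * D⁻¹) ((-β * D⁻¹) * z + (-β * D⁻¹) * z⁻¹)).symm,
      ← e3]
    ring
  rw [h2, h3, h4]
  have hne : -β * D⁻¹ ≠ 0 := mul_ne_zero (neg_ne_zero.mpr hβ) (inv_ne_zero hD)
  have h5 := kl (-β * D⁻¹) (-β * D⁻¹) (fun h => hne h.1)
  have h6 : ∀ x : ZMod p, ‖(ZMod.stdAddChar x : ℂ)‖ = 1 := psi_norm
  calc _ ≤ ‖(ZMod.stdAddChar (β * ((0 + D)⁻¹ - (0 : ZMod p)⁻¹)) : ℂ)‖ +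
      (‖(ZMod.stdAddChar (β * ((-D + D)⁻¹ - (-D)⁻¹)) : ℂ)‖ +
        (‖(ZMod.stdAddChar (2 * β * D⁻¹) : ℂ) *
        ∑ y : (ZMod p)ˣ, (ZMod.stdAddChar ((-β * D⁻¹) * (y : ZMod p) + (-β * D⁻¹) *
          ((y⁻¹ : (ZMod p)ˣ) : ZMod p)) : ℂ)‖ + ‖(1 : ℂ)‖)) := by
        refine (norm_add_le _ _).trans ?_
        gcongr
        refine (norm_add_le _ _).trans ?_
        gcongr
        exact norm_sub_le _ _
    _ ≤ 1 + (1 + (2 * Real.sqrt p + 1)) := by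
        rw [h6, h6, norm_mul, h6, one_mul, norm_one]
        gcongr
    _ = _ := by ring

/-- the exponential sums of the inverses of sums -/
theorem bias_inv_sq {r : ℕ} (A B : Finset (ZMod p)) (u v : ZMod p → ZMod p) (β : ZMod p) (hβ : β ≠ 0)
    (_hr : r = 1) :
    ‖∑ z ∈ A ×ˢ B, (ZMod.stdAddChar (β * ((z.1 + z.2)⁻¹ + u z.1 + v z.2)) : ℂ)‖ ^ 2 ≤
      B.card * ((A.card : ℝ) * p + (A.card : ℝ) ^ 2 * (2 * Real.sqrt p + 3)) := by
  classical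
  set b : ZMod p → ZMod p → ZMod p := fun x y => β * ((x + y)⁻¹ + u x) with hb
  have h0 : ∑ z ∈ A ×ˢ B, (ZMod.stdAddChar (β * ((z.1 + z.2)⁻¹ + u z.1 + v z.2)) : ℂ) =
      ∑ z ∈ A ×ˢ B, (ZMod.stdAddChar (b z.1 z.2 + β * v z.2) : ℂ) := by
    refine sum_congr rfl fun z _ => ?_
    congr 1
    rw [hb]
    ring
  rw [h0]
  refine (bias_gen A B b (fun y => β * v y)).trans ?_
  apply mul_le_mul_of_nonneg_left _ (Nat.cast_nonneg _)
  have h6 : ∀ q ∈ A ×ˢ A, ‖∑ y : ZMod p, (ZMod.stdAddChar (b q.1 y - b q.2 y) : ℂ)‖ ≤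
      (if q.1 = q.2 then (p : ℝ) else 0) + (2 * Real.sqrt p + 3) := by
    intro q _
    have hsq : 0 ≤ 2 * Real.sqrt (p : ℝ) + 3 := by positivity
    split_ifs with hdeg
    · refine (norm_sum_le _ _).trans ?_
      rw [sum_congr rfl fun y _ => psi_norm _, sum_const, card_univ, ZMod.card, nsmul_eq_mul, mul_one]
      linarith
    · rw [zero_add]
      have hG : ∀ y : ZMod p, b q.1 y - b q.2 y = β * (u q.1 - u q.2) +
          β * ((y + q.2 + (q.1 - q.2))⁻¹ - (y + q.2)⁻¹) := by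
        intro y
        rw [hb]
        have e1 : y + q.2 + (q.1 - q.2) = q.1 + y := by ring
        have e2 : y + q.2 = q.2 + y := by ring
        rw [e1, e2]
        ring
      have e2 : ∑ y : ZMod p, (ZMod.stdAddChar (b q.1 y - b q.2 y) : ℂ) =
          (ZMod.stdAddChar (β * (u q.1 - u q.2)) : ℂ) *
            ∑ y : ZMod p, (ZMod.stdAddChar (β * ((y + q.2 + (q.1 - q.2))⁻¹ - (y + q.2)⁻¹)) : ℂ) := by
        rw [mul_sum]
        refine sum_congr rfl fun y _ => ?_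
        rw [← psi_add, hG]
      rw [e2, norm_mul, psi_norm, one_mul]
      exact inv_sums _ _ (sub_ne_zero.mpr hdeg) hβ _
  refine (sum_le_sum h6).trans (le_of_eq ?_)
  rw [sum_add_distrib, sum_const, card_product, nsmul_eq_mul, sum_product]
  have e1 : ∀ x ∈ A, ∑ y ∈ A, (if (x, y).1 = (x, y).2 then (p : ℝ) else 0) = p := by
    intro x hx
    simp [hx]
  rw [sum_congr rfl e1, sum_const, nsmul_eq_mul]
  push_cast
  ring

end Pool.Agent.L5helper97.RG
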