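import Pool.Agent.L5helper97.RG.Burg

set_option autoImplicit false

/-! # Sets of residues with small character norm: primitive roots, cosets, intervals of discrete logarithms -/

namespace Pool.Agent.L5helper97.RG

open Finset Filter
open Pool.Agent.N647.BU

variable {p : ℕ} [Fact p.Prime]

lemma nrm_grp (T : Finset (ZMod p)) (hT : ∀ a ∈ T, a ≠ 0) (h1 : (1 : ZMod p) ∈ T)
    (hmul : ∀ a ∈ T, ∀ b ∈ T, a * b ∈ T) : nrm T = 1 := sum_coef T hT h1 hmul

/-- the set of the primitive roots -/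
noncomputable def prim (p : ℕ) [Fact p.Prime] : Finset (ZMod p) :=
  univ.filter (fun a : ZMod p => orderOf a = p - 1)

lemma prim_ne (a : ZMod p) (ha : a ∈ prim p) : a ≠ 0 := by
  rintro rfl
  have h1 := (mem_filter.mp ha).2
  have h3 : orderOf (0 : ZMod p) = 0 := by
    rw [orderOf_eq_zero_iff']
    intro n hn
    rw [zero_pow (by omega)]
    exact zero_ne_one
  have := (Fact.out : p.Prime).two_le
  omega

lemma prim_card : (prim p).card = (p - 1).totient := by
  classical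
  have hp2 := (Fact.out : p.Prime).two_le
  have hcard : Fintype.card (ZMod p)ˣ = p - 1 := ZMod.card_units p
  have h1 := IsCyclic.card_orderOf_eq_totient (α := (ZMod p)ˣ) (d := p - 1) (by rw [hcard])
  have h2 : (prim p).card = (univ.filter (fun u : (ZMod p)ˣ => orderOf u = p - 1)).card := by
    symm
    refine card_bij (fun u _ => (u : ZMod p)) ?_ ?_ ?_
    · intro u hu
      rw [prim, mem_filter]
      rw [mem_filter] at hu
      exact ⟨mem_univ _, by rw [orderOf_units]; exact hu.2⟩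
    · intro u _ w _ h
      exact Units.ext h
    · intro a ha
      refine ⟨Units.mk0 a (prim_ne a ha), ?_, rfl⟩
      rw [mem_filter]
      refine ⟨mem_univ _, ?_⟩
      rw [← orderOf_units]
      exact (mem_filter.mp ha).2
  rw [h2, h1]

lemma prim_nrm : nrm (prim p) ≤ ((p - 1).divisors.card : ℝ) := by
  classical
  have hp2 := (Fact.out : p.Prime).two_le
  set T : ℕ → Finset (ZMod p) := fun d => univ.filter (fun a => a ^ ((p - 1) / d) = 1) with hT
  have hpos : ∀ d ∈ (p - 1).divisors, (p - 1) / d ≠ 0 := by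
    intro d hd
    have hd2 := Nat.mem_divisors.mp hd
    have := Nat.div_pos (Nat.le_of_dvd (by omega) hd2.1) (Nat.pos_of_dvd_of_pos hd2.1 (by omega))
    omega
  have hT0 : ∀ d ∈ (p - 1).divisors, ∀ a ∈ T d, a ≠ 0 := by
    intro d hd a ha h0
    have h1 := (mem_filter.mp ha).2
    rw [h0, zero_pow (hpos d hd)] at h1
    exact zero_ne_one h1
  have hc : ∀ χ : DirichletCharacter ℂ p, coef (prim p) χ =
      ∑ d ∈ (p - 1).divisors, ((ArithmeticFunction.moebius d : ℤ) : ℂ) * coef (T d) χ := by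
    intro χ
    unfold coef
    have e1 : ∑ a ∈ prim p, χ a⁻¹ = ∑ a : ZMod p, ((if orderOf a = p - 1 then (1 : ℤ) else 0 : ℤ) : ℂ) *
        χ a⁻¹ := by
      rw [prim, sum_filter]
      refine sum_congr rfl fun a _ => ?_
      split_ifs <;> simp
    have e2 : ∀ a : ZMod p, ((if orderOf a = p - 1 then (1 : ℤ) else 0 : ℤ) : ℂ) * χ a⁻¹ =
        ∑ d ∈ (p - 1).divisors, ((ArithmeticFunction.moebius d : ℤ) : ℂ) *
          ((if a ^ ((p - 1) / d) = 1 then χ a⁻¹ else 0)) := by
      intro a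
      rw [prim_ind a]
      push_cast
      rw [sum_mul]
      refine sum_congr rfl fun d _ => ?_
      split_ifs <;> simp
    rw [e1, sum_congr rfl fun a _ => e2 a, sum_comm, mul_sum]
    refine sum_congr rfl fun d _ => ?_
    rw [← mul_sum, hT, sum_filter]
    ring
  unfold nrm
  calc ∑ χ : DirichletCharacter ℂ p, ‖coef (prim p) χ‖
      ≤ ∑ χ : DirichletCharacter ℂ p, ∑ d ∈ (p - 1).divisors, ‖coef (T d) χ‖ := by
        refine sum_le_sum fun χ _ => ?_
        rw [hc χ]
        refine (norm_sum_le _ _).trans (sum_le_sum fun d _ => ?_)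
        rw [norm_mul]
        have h1 : ‖((ArithmeticFunction.moebius d : ℤ) : ℂ)‖ ≤ 1 := by
          rw [Complex.norm_intCast]
          exact_mod_cast ArithmeticFunction.abs_moebius_le_one
        calc _ ≤ 1 * ‖coef (T d) χ‖ := mul_le_mul_of_nonneg_right h1 (norm_nonneg _)
          _ = _ := one_mul _
    _ = ∑ d ∈ (p - 1).divisors, nrm (T d) := by rw [sum_comm]; rfl
    _ = ∑ _d ∈ (p - 1).divisors, (1 : ℝ) := by
        refine sum_congr rfl fun d hd => nrm_grp (T d) (hT0 d hd) (by simp [hT]) ?_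
        intro a ha b hb
        simp only [hT, mem_filter, mem_univ, true_and] at ha hb ⊢
        rw [mul_pow, ha, hb, one_mul]
    _ = _ := by simp

/-- cosets -/
noncomputable def cos (G : Subgroup (ZMod p)ˣ) (c : (ZMod p)ˣ) : Finset (ZMod p) := by
  classical
  exact (univ.filter (fun u : (ZMod p)ˣ => u ∈ G)).image
    (fun u : (ZMod p)ˣ => (c : ZMod p) * (u : ZMod p))

lemma mem_cos (G : Subgroup (ZMod p)ˣ) (c : (ZMod p)ˣ) (a : ZMod p) :
    a ∈ cos G c ↔ ∃ h ∈ G, a = (c : ZMod p) * (h : (ZMod p)ˣ) := by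
  classical
  unfold cos
  simp only [mem_image, mem_filter, mem_univ, true_and]
  constructor
  · rintro ⟨u, hu, rfl⟩
    exact ⟨u, hu, rfl⟩
  · rintro ⟨u, hu, rfl⟩
    exact ⟨u, hu, rfl⟩

lemma cos_ne (G : Subgroup (ZMod p)ˣ) (c : (ZMod p)ˣ) (a : ZMod p) (ha : a ∈ cos G c) : a ≠ 0 := by
  obtain ⟨h, _, rfl⟩ := (mem_cos G c a).mp ha
  rw [← Units.val_mul]
  exact Units.ne_zero _

lemma cos_inj (c : (ZMod p)ˣ) :
    Function.Injective (fun u : (ZMod p)ˣ => (c : ZMod p) * (u : ZMod p)) := by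
  intro u w h
  exact Units.ext ((mul_right_injective₀ c.ne_zero) h)

lemma cos_card (G : Subgroup (ZMod p)ˣ) (c : (ZMod p)ˣ) :
    (cos G c).card * G.index = p - 1 := by
  classical
  have h1 : (cos G c).card = Nat.card G := by
    unfold cos
    rw [card_image_of_injective _ (cos_inj c), Nat.card_eq_fintype_card, Fintype.card_subtype]
  rw [h1, Subgroup.card_mul_index, Nat.card_eq_fintype_card, ZMod.card_units]

lemma cos_nrm (G : Subgroup (ZMod p)ˣ) (c : (ZMod p)ˣ) : nrm (cos G c) = 1 := by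
  classical
  have h1 : nrm (cos G 1) = 1 := by
    refine nrm_grp _ (cos_ne G 1) ((mem_cos G 1 1).mpr ⟨1, G.one_mem, by simp⟩) ?_
    intro a ha b hb
    obtain ⟨x, hx, rfl⟩ := (mem_cos G 1 a).mp ha
    obtain ⟨y, hy, rfl⟩ := (mem_cos G 1 b).mp hb
    exact (mem_cos G 1 _).mpr ⟨x * y, G.mul_mem hx hy, by simp⟩
  rw [← h1]
  unfold nrm
  refine sum_congr rfl fun χ _ => ?_
  have h2 : coef (cos G c) χ = χ (c : ZMod p)⁻¹ * coef (cos G 1) χ := by
    unfold coef cos
    rw [sum_image (fun a _ b _ h => cos_inj c h), sum_image (fun a _ b _ h => cos_inj 1 h),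
      mul_left_comm]
    congr 1
    rw [mul_sum]
    refine sum_congr rfl fun u _ => ?_
    rw [mul_inv, map_mul, Units.val_one, one_mul]
  rw [h2, norm_mul]
  have h3 : ‖χ (c : ZMod p)⁻¹‖ = 1 := by
    have h4 : (c : ZMod p)⁻¹ = ((c⁻¹ : (ZMod p)ˣ) : ZMod p) := by
      rw [Units.val_inv_eq_inv_val]
    rw [h4]
    exact DirichletCharacter.unit_norm_eq_one χ _
  rw [h3, one_mul]

/-- intervals of discrete logarithms -/
noncomputable def dl (g : ZMod p) (N K : ℕ) : Finset (ZMod p) :=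
  (Ioc N (N + K)).image (fun k => g ^ k)

lemma gen_ne {g : ZMod p} (hg : orderOf g = p - 1) : g ≠ 0 :=
  prim_ne g (by rw [prim, mem_filter]; exact ⟨mem_univ _, hg⟩)

lemma dl_inj {g : ZMod p} (hg : orderOf g = p - 1) (N K : ℕ) (hK : K ≤ p - 1) :
    Set.InjOn (fun k : ℕ => g ^ k) (Ioc N (N + K) : Finset ℕ) := by
  intro a ha b hb h
  have ha' := mem_Ioc.mp (mem_coe.mp ha)
  have hb' := mem_Ioc.mp (mem_coe.mp hb)
  have h1 : g ^ a = g ^ b := h
  set u : (ZMod p)ˣ := Units.mk0 g (gen_ne hg) with hu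
  have hou : orderOf u = p - 1 := by rw [← orderOf_units]; exact hg
  have h2 : u ^ a = u ^ b := by
    apply Units.ext
    simpa [hu] using h1
  rw [pow_inj_mod, hou] at h2
  have h3 : (a : ℤ) ≡ b [ZMOD ((p - 1 : ℕ) : ℤ)] := by
    have : a ≡ b [MOD (p - 1)] := h2
    exact (Int.natCast_modEq_iff).mpr this
  have h4 := (Int.modEq_iff_dvd.mp h3)
  obtain ⟨c, hc⟩ := h4
  have hp2 := (Fact.out : p.Prime).two_le
  rcases lt_trichotomy c 0 with h | h | h
  · have : ((p - 1 : ℕ) : ℤ) * c ≤ -((p - 1 : ℕ) : ℤ) := by nlinarith [Int.natCast_nonneg (p - 1)]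
    omega
  · rw [h, mul_zero] at hc
    omega
  · have : ((p - 1 : ℕ) : ℤ) ≤ ((p - 1 : ℕ) : ℤ) * c := by nlinarith [Int.natCast_nonneg (p - 1)]
    omega

lemma dl_card {g : ZMod p} (hg : orderOf g = p - 1) (N K : ℕ) (hK : K ≤ p - 1) :
    (dl g N K).card = K := by
  unfold dl
  rw [card_image_of_injOn (dl_inj hg N K hK)]
  simp

lemma dl_ne {g : ZMod p} (hg : orderOf g = p - 1) (N K : ℕ) (a : ZMod p) (ha : a ∈ dl g N K) :
    a ≠ 0 := by
  obtain ⟨k, _, rfl⟩ := mem_image.mp ha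
  exact pow_ne_zero _ (gen_ne hg)

lemma dl_nrm {g : ZMod p} (hg : orderOf g = p - 1) (N K : ℕ) (hK : K ≤ p - 1) :
    nrm (dl g N K) ≤ 2 + Real.log p := by
  classical
  have hp2 := (Fact.out : p.Prime).two_le
  have hne : NeZero (p - 1) := ⟨by omega⟩
  have hg0 := gen_ne hg
  have hφ : (p.totient : ℝ) = ((p - 1 : ℕ) : ℝ) := by rw [Nat.totient_prime Fact.out]
  have hm0 : (0 : ℝ) < ((p - 1 : ℕ) : ℝ) := by exact_mod_cast (by omega : 0 < p - 1)
  have hginv : g⁻¹ ≠ 0 := inv_ne_zero hg0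
  -- the values at the inverse of `g`
  have hz : ∀ χ : DirichletCharacter ℂ p, ∃ w : ZMod (p - 1), ZMod.stdAddChar w = χ g⁻¹ := by
    intro χ
    have h1 : (χ g⁻¹) ^ (p - 1) = 1 := by
      rw [← map_pow, ZMod.pow_card_sub_one_eq_one hginv, map_one]
    have h2 : IsPrimitiveRoot (ZMod.stdAddChar (1 : ZMod (p - 1)) : ℂ) (p - 1) := by
      have e : (ZMod.stdAddChar (1 : ZMod (p - 1)) : ℂ) =
          Complex.exp (2 * Real.pi * Complex.I / ((p - 1 : ℕ) : ℂ)) := by
        have := ZMod.stdAddChar_coe (N := p - 1) 1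
        simpa using this
      rw [e]
      exact Complex.isPrimitiveRoot_exp (p - 1) (by omega)
    obtain ⟨i, _, hi⟩ := h2.eq_pow_of_pow_eq_one h1
    refine ⟨(i : ZMod (p - 1)), ?_⟩
    rw [← hi, ← AddChar.map_nsmul_eq_pow, nsmul_eq_mul, mul_one]
  choose w hw using hz
  have hinj : Function.Injective w := by
    intro χ χ' h
    have h1 : χ g⁻¹ = χ' g⁻¹ := by rw [← hw, ← hw, h]
    have h2 : χ g = χ' g := by
      have e1 : χ g * χ g⁻¹ = 1 := by rw [← map_mul, mul_inv_cancel₀ hg0, map_one]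
      have e2 : χ' g * χ' g⁻¹ = 1 := by rw [← map_mul, mul_inv_cancel₀ hg0, map_one]
      have e3 : χ g⁻¹ ≠ 0 := by
        intro h0
        rw [h0, mul_zero] at e1
        exact zero_ne_one e1
      rw [← h1] at e2
      exact mul_right_cancel₀ e3 (e1.trans e2.symm)
    apply MulChar.ext
    intro u
    set v : (ZMod p)ˣ := Units.mk0 g hg0 with hv
    have hov : orderOf v = Nat.card (ZMod p)ˣ := by
      rw [Nat.card_eq_fintype_card, ZMod.card_units, ← hg, ← orderOf_units]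
      rfl
    have hmem : u ∈ Submonoid.powers v := by
      have h4 : Subgroup.zpowers v = ⊤ := by
        apply Subgroup.eq_top_of_card_eq
        rw [Nat.card_zpowers, hov]
      have h3 : u ∈ Subgroup.zpowers v := by
        rw [h4]
        exact Subgroup.mem_top _
      rwa [← mem_powers_iff_mem_zpowers] at h3
    obtain ⟨k, hk⟩ := hmem
    have hk' : (u : ZMod p) = g ^ k := by
      rw [← hk]
      simp [hv]
    rw [hk', map_pow, map_pow, h2]
  have hcoef : ∀ χ : DirichletCharacter ℂ p, ‖coef (dl g N K) χ‖ =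
      (1 / ((p - 1 : ℕ) : ℝ)) * ‖∑ k ∈ range K, (ZMod.stdAddChar (w χ * (k : ZMod (p - 1))) : ℂ)‖ := by
    intro χ
    unfold coef dl
    rw [sum_image (dl_inj hg N K hK), norm_mul, norm_div, norm_one, Complex.norm_natCast, hφ]
    congr 1
    have e1 : ∑ k ∈ Ioc N (N + K), χ (g ^ k)⁻¹ =
        (χ g⁻¹) ^ (N + 1) * ∑ k ∈ range K, (χ g⁻¹) ^ k := by
      rw [mul_sum]
      have : Ioc N (N + K) = (range K).image (fun k => N + 1 + k) := by
        ext x
        simp only [mem_Ioc, mem_image, mem_range]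
        constructor
        · intro h
          exact ⟨x - (N + 1), by omega, by omega⟩
        · rintro ⟨y, hy, rfl⟩
          omega
      rw [this, sum_image (fun a _ b _ h => by simpa using h)]
      refine sum_congr rfl fun k _ => ?_
      rw [← pow_add, ← inv_pow, map_pow]
    rw [e1, norm_mul]
    have e2 : ‖χ g⁻¹‖ = 1 := by rw [← hw]; exact AddChar.norm_apply _ _
    rw [norm_pow, e2, one_pow, one_mul]
    congr 1
    refine sum_congr rfl fun k _ => ?_
    rw [← hw χ, ← AddChar.map_nsmul_eq_pow, nsmul_eq_mul, mul_comm]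
  unfold nrm
  rw [sum_congr rfl fun χ _ => hcoef χ, ← mul_sum]
  have h5 : ∑ χ : DirichletCharacter ℂ p,
      ‖∑ k ∈ range K, (ZMod.stdAddChar (w χ * (k : ZMod (p - 1))) : ℂ)‖ ≤
      ∑ v : ZMod (p - 1), ‖∑ k ∈ range K, (ZMod.stdAddChar (v * (k : ZMod (p - 1))) : ℂ)‖ := by
    rw [← sum_image (s := univ) (g := w)
      (f := fun v => ‖∑ k ∈ range K, (ZMod.stdAddChar (v * (k : ZMod (p - 1))) : ℂ)‖)
      (fun a _ b _ h => hinj h)]
    exact sum_le_sum_of_subset_of_nonneg (subset_univ _) fun _ _ _ => norm_nonneg _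
  have h6 := Pool.Agent.H442R2.KF.Inc.sumgeom (p - 1) K
  have h7 : ((K : ℕ) : ℝ) ≤ ((p - 1 : ℕ) : ℝ) := by exact_mod_cast hK
  have h8 : Real.log ((p - 1 : ℕ) : ℝ) ≤ Real.log p := by
    apply Real.log_le_log hm0
    exact_mod_cast Nat.sub_le _ _
  calc 1 / ((p - 1 : ℕ) : ℝ) * _ ≤ 1 / ((p - 1 : ℕ) : ℝ) *
        (((p - 1 : ℕ) : ℝ) + ((p - 1 : ℕ) : ℝ) * (1 + Real.log p)) := by
        apply mul_le_mul_of_nonneg_left _ (by positivity)
        refine h5.trans (h6.trans ?_)
        gcongr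
    _ = 2 + Real.log p := by field_simp; ring

end Pool.Agent.L5helper97.RG
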